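import Pool.Agent.PRAR.E.Def

/-! # Section 6 (ii): choice of b -/

set_option autoImplicit false
set_option linter.unusedSectionVars false

open scoped Classical

noncomputable section

namespace PRAR

variable {ι : Type} [Fintype ι] {F : Type} [Field F] [Fintype F]
variable {Y : Type} [AddCommGroup Y] [Module F Y] [Fintype Y]

theorem ea1_card_off (P : Fam ι F Y) (j : ι) : (P.off j).card ≤ P.card :=
  Fintype.card_le_of_injective (Subtype.val : {k : P.κ // j ∉ P.ty k} → P.κ)
    Subtype.val_injective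

theorem ea1_prob_ge (P : Fam ι F Y) (j : ι) :
    1 ≤ (qq F) ^ P.card * prob (fun y => y ∈ (P.off j).zer) := by
  have h1 := prob_zer_ge (P.off j)
  have hq : 0 < qq F := qq_pos F
  have hq1 : 1 ≤ qq F := (one_lt_qq F).le
  have h2 : (qq F)⁻¹ ^ P.card ≤ (qq F)⁻¹ ^ (P.off j).card :=
    pow_le_pow_of_le_one (by positivity) (inv_le_one_of_one_le₀ hq1) (ea1_card_off P j)
  have h3 : (qq F) ^ P.card * (qq F)⁻¹ ^ P.card = 1 := by
    rw [← mul_pow, mul_inv_cancel₀ hq.ne', one_pow]
  calc (1 : ℝ) = (qq F) ^ P.card * (qq F)⁻¹ ^ P.card := h3.symm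
    _ ≤ _ := by
      apply mul_le_mul_of_nonneg_left (h2.trans h1) (by positivity)

theorem ea1_zero_mem (P : Fam ι F Y) : (0 : ι → Y) ∈ P.zer := by
  intro k
  obtain ⟨i, hi⟩ := P.ne k
  exact (P.lin k).eq_zero_of_coord hi rfl

theorem choose_b (P : Fam ι F Y) (j : ι) (κ : ℕ) :
    ∃ b : ι → Y, b ∈ (P.off j).zer ∧
      prob (fun y : ι → Y => κ < dep P j y b) ≤ (qq F) ^ P.card *
        prob (fun yb : (ι → Y) × (ι → Y) => κ < dep P j yb.1 yb.2) := by
  by_contra hcon
  push Not at hcon
  set δ : ℝ := prob (fun yb : (ι → Y) × (ι → Y) => κ < dep P j yb.1 yb.2) with hδ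
  set g : (ι → Y) → ℝ := fun b => prob (fun y : ι → Y => κ < dep P j y b) with hg
  have hδ0 : 0 ≤ δ := prob_nonneg _
  have hδavg : δ = avg g := by
    rw [hδ, prob_prod]
    simp only [hg, prob_eq_avg]
    exact avg_comm _
  have hlt : avg (fun b : ι → Y => if b ∈ (P.off j).zer then (qq F) ^ P.card * δ else 0) <
      avg g := by
    unfold avg
    apply div_lt_div_of_pos_right
    · apply Finset.sum_lt_sum
      · intro b _
        split_ifs with hb
        · exact (hcon b hb).le
        · exact prob_nonneg _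
      · refine ⟨0, Finset.mem_univ _, ?_⟩
        rw [if_pos (ea1_zero_mem _)]
        exact hcon 0 (ea1_zero_mem _)
    · have : 0 < Fintype.card (ι → Y) := Fintype.card_pos
      exact_mod_cast this
  have heq : avg (fun b : ι → Y => if b ∈ (P.off j).zer then (qq F) ^ P.card * δ else 0) =
      ((qq F) ^ P.card * prob (fun y => y ∈ (P.off j).zer)) * δ := by
    have : (fun b : ι → Y => if b ∈ (P.off j).zer then (qq F) ^ P.card * δ else 0) =
        fun b : ι → Y => ((qq F) ^ P.card * δ) * (if b ∈ (P.off j).zer then (1 : ℝ) else 0) := by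
      funext b
      split_ifs <;> simp
    rw [this, avg_const_mul, ← prob_eq_avg]
    ring
  rw [heq, ← hδavg] at hlt
  have h1 := ea1_prob_ge P j
  nlinarith [mul_le_mul_of_nonneg_right h1 hδ0]

end PRAR
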