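import Pool.Agent.PRAR.E.Def

/-! # Section 6 (iii): main forms and dual vectors -/

set_option autoImplicit false
set_option linter.unusedSectionVars false

open scoped Classical

noncomputable section

namespace PRAR

variable {ι : Type} [Fintype ι] {F : Type} [Field F] [Fintype F]
variable {Y : Type} [AddCommGroup Y] [Module F Y] [Fintype Y]

/-- Prescribed values on a linearly independent family. -/
theorem ea2_ext {V κ : Type} [AddCommGroup V] [Module F V] {v : κ → V}
    (hv : LinearIndependent F v) (f : κ → F) : ∃ g : V →ₗ[F] F, ∀ i, g (v i) = f i := by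
  obtain ⟨g, hg⟩ := LinearMap.exists_extend
    ((Finsupp.linearCombination F f) ∘ₗ
      (hv.linearCombinationEquiv.symm : Submodule.span F (Set.range v) →ₗ[F] (κ →₀ F)))
  refine ⟨g, fun i => ?_⟩
  have h1 : hv.linearCombinationEquiv (Finsupp.single i 1) =
      (⟨v i, Submodule.subset_span ⟨i, rfl⟩⟩ : Submodule.span F (Set.range v)) := by
    apply Subtype.ext
    rw [LinearIndependent.linearCombinationEquiv_apply_coe, Finsupp.linearCombination_single,
      one_smul]
  have h2 : hv.linearCombinationEquiv.symm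
      (⟨v i, Submodule.subset_span ⟨i, rfl⟩⟩ : Submodule.span F (Set.range v)) =
      Finsupp.single i 1 := by
    rw [← h1, LinearEquiv.symm_apply_apply]
  have h3 := congrArg (fun L : Submodule.span F (Set.range v) →ₗ[F] F =>
    L ⟨v i, Submodule.subset_span ⟨i, rfl⟩⟩) hg
  have h4 : g (v i) = Finsupp.linearCombination F f (hv.linearCombinationEquiv.symm
      (⟨v i, Submodule.subset_span ⟨i, rfl⟩⟩ : Submodule.span F (Set.range v))) := h3
  rw [h4, h2, Finsupp.linearCombination_single, one_smul]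

/-- Dual vectors of linearly independent functionals. -/
theorem ea2_dual {U : Submodule F Y} {κ : Type} {s : Set κ} {ψ : κ → Module.Dual F U}
    (h : LinearIndepOn F ψ s) :
    ∃ θ : κ → U, ∀ k ∈ s, ∀ k' ∈ s, ψ k' (θ k) = if k' = k then 1 else 0 := by
  have h1 : ∀ k : κ, ∃ g : Module.Dual F U →ₗ[F] F, ∀ i : s,
      g (ψ i) = if (i : κ) = k then 1 else 0 := fun k =>
    ea2_ext (F := F) (v := fun x : s => ψ x) h (fun i => if (i : κ) = k then 1 else 0)
  choose g hg using h1
  refine ⟨fun k => (Module.evalEquiv F U).symm (g k), fun k _ k' hk' => ?_⟩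
  rw [Module.apply_evalEquiv_symm_apply]
  exact hg k ⟨k', hk'⟩

/-- The functional `u ↦ p_k(b, u)`. -/
def ea2_phi (P : Fam ι F Y) (j : ι) (b : ι → Y) (k : P.κ) : Module.Dual F Y :=
  if h : j ∈ P.ty k then slotMap (P.lin k) h b else 0

theorem ea2_phi_apply {P : Fam ι F Y} {j : ι} {b : ι → Y} {k : P.κ} (h : j ∈ P.ty k) (u : Y) :
    ea2_phi P j b k u = P.p k (Function.update b j u) := by
  unfold ea2_phi
  rw [dif_pos h]
  rfl

/-- Every functional vanishing on `UU` is a combination of the forms of type `{j}`. -/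
theorem ea2_ann (P : Fam ι F Y) (j : ι) (b : ι → Y) :
    (UU P j).dualAnnihilator ≤ Submodule.span F (ea2_phi P j b '' {k | P.ty k = {j}}) := by
  rw [← Subspace.dualCoannihilator_dualAnnihilator_eq
    (W := Submodule.span F (ea2_phi P j b '' {k | P.ty k = {j}}))]
  apply Submodule.dualAnnihilator_anti
  intro u hu k hk
  rw [Submodule.mem_dualCoannihilator] at hu
  have hj : j ∈ P.ty k := by rw [hk]; simp
  have h1 := hu (ea2_phi P j b k) (Submodule.subset_span ⟨k, hk, rfl⟩)
  rw [ea2_phi_apply hj] at h1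
  rw [← h1]
  refine (P.lin k).congr fun i hi => ?_
  rw [hk, Finset.mem_singleton] at hi
  subst hi
  simp

/-- The index of a form in the family of relations. -/
def ea2_idx (P : Fam ι F Y) (j : ι) (k : P.κ) (h : j ∈ P.ty k) : RIdx P j :=
  ⟨(k, (P.ty k).erase j), h, Finset.Subset.refl _⟩

theorem ea2_rfun (P : Fam ι F Y) (j : ι) (y b : ι → Y) (x : RIdx P j)
    (hx : x.1.2 = (P.ty x.1.1).erase j) (u : Y) :
    rfun P j y b x u = ea2_phi P j b x.1.1 u := by
  rw [ea2_phi_apply x.2.1]
  show P.p x.1.1 (Function.update (x.1.2.piecewise b y) j u) = _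
  refine (P.lin x.1.1).congr fun i hi => ?_
  by_cases hij : i = j
  · subst hij; simp
  · rw [Function.update_of_ne hij, Function.update_of_ne hij, hx, Finset.piecewise_eq_of_mem]
    exact Finset.mem_erase.2 ⟨hij, hi⟩

/-- A relation between the functionals of the forms gives an element of `relSpace`. -/
theorem ea2_rel (P : Fam ι F Y) (j : ι) (y b : ι → Y) (a : P.κ → F)
    (ha : ∀ u, ∑ k, a k * ea2_phi P j b k u = 0) :
    (fun x : RIdx P j => if x.1.2 = (P.ty x.1.1).erase j then a x.1.1 else 0) ∈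
      relSpace P j y b := by
  intro u
  have h1 : ∀ x : RIdx P j, (if x.1.2 = (P.ty x.1.1).erase j then a x.1.1 else 0) *
      rfun P j y b x u = if x.1.2 = (P.ty x.1.1).erase j then
        a x.1.1 * ea2_phi P j b x.1.1 u else 0 := by
    intro x
    by_cases hx : x.1.2 = (P.ty x.1.1).erase j
    · rw [if_pos hx, if_pos hx, ea2_rfun P j y b x hx]
    · rw [if_neg hx, if_neg hx, zero_mul]
  rw [Finset.sum_congr rfl fun x _ => h1 x, ← Finset.sum_filter, ← ha u]
  have h2 : ∑ k, a k * ea2_phi P j b k u =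
      ∑ k ∈ Finset.univ.filter (fun k => j ∈ P.ty k), a k * ea2_phi P j b k u := by
    symm
    apply Finset.sum_filter_of_ne
    intro k _ hk
    by_contra hj
    apply hk
    unfold ea2_phi
    rw [dif_neg hj]
    simp
  rw [h2]
  refine Finset.sum_bij (fun x _ => x.1.1) ?_ ?_ ?_ ?_
  · intro x _
    exact Finset.mem_filter.2 ⟨Finset.mem_univ _, x.2.1⟩
  · intro x hx x' hx' he
    have h3 := (Finset.mem_filter.1 hx).2
    have h4 := (Finset.mem_filter.1 hx').2
    apply Subtype.ext
    apply Prod.ext he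
    rw [h3, h4, he]
  · intro k hk
    exact ⟨ea2_idx P j k (Finset.mem_filter.1 hk).2,
      Finset.mem_filter.2 ⟨Finset.mem_univ _, rfl⟩, rfl⟩
  · intro x _
    rfl

theorem choose_main (P : Fam ι F Y) (j : ι) (y b : ι → Y) :
    ∃ (Mn : Finset P.κ) (θ : P.κ → Y), (∀ k ∈ Mn, j ∈ P.ty k ∧ P.ty k ≠ {j}) ∧
      (∀ k ∈ Mn, θ k ∈ UU P j) ∧
      (∀ k ∈ Mn, ∀ k' ∈ Mn, P.p k' (Function.update b j (θ k)) = if k' = k then 1 else 0) ∧
      (Finset.univ.filter (fun k => j ∈ P.ty k ∧ P.ty k ≠ {j} ∧ k ∉ Mn)).card ≤ dep P j y b := by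
  set KK0 : Set P.κ := {k | j ∈ P.ty k ∧ P.ty k ≠ {j}} with hKK0
  set ψ : P.κ → Module.Dual F (UU P j) := fun k => (UU P j).dualRestrict (ea2_phi P j b k)
    with hψ
  obtain ⟨M, hM0, -, hspan, hind⟩ := exists_linearIndepOn_extension
    (K := F) (v := ψ) (s := ∅) (t := KK0) (linearIndepOn_empty F ψ) (Set.empty_subset _)
  obtain ⟨θ, hθ⟩ := ea2_dual hind
  refine ⟨M.toFinset, fun k => (θ k : Y), ?_, ?_, ?_, ?_⟩
  · intro k hk
    exact hM0 (Set.mem_toFinset.1 hk)
  · intro k _
    exact (θ k).2
  · intro k hk k' hk'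
    have h1 := hθ k (Set.mem_toFinset.1 hk) k' (Set.mem_toFinset.1 hk')
    rw [← h1, ← ea2_phi_apply (hM0 (Set.mem_toFinset.1 hk')).1]
    rfl
  · -- the relations
    have hrel : ∀ k ∈ KK0, ∃ a : P.κ → F, (∀ i, a i ≠ 0 → i ∈ M ∨ P.ty i = {j}) ∧
        ∀ u, ea2_phi P j b k u = ∑ i, a i * ea2_phi P j b i u := by
      intro k hk
      have h1 : ψ k ∈ Submodule.span F (ψ '' M) := hspan ⟨k, hk, rfl⟩
      have h2 : ψ '' M = (UU P j).dualRestrict '' (ea2_phi P j b '' M) := by
        rw [Set.image_image]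
      rw [h2, Submodule.span_image] at h1
      obtain ⟨w, hw, hw2⟩ := h1
      have h3 : ea2_phi P j b k - w ∈ (UU P j).dualAnnihilator := by
        rw [← Submodule.dualRestrict_ker_eq_dualAnnihilator, LinearMap.mem_ker, map_sub, hw2]
        exact sub_self _
      have h4 := ea2_ann P j b h3
      have h5 : ea2_phi P j b k ∈ Submodule.span F
          (ea2_phi P j b '' (M ∪ {k | P.ty k = {j}})) := by
        rw [Set.image_union, Submodule.span_union, ← sub_add_cancel (ea2_phi P j b k) w,
          add_comm]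
        exact Submodule.add_mem_sup hw h4
      rw [Finsupp.mem_span_image_iff_linearCombination] at h5
      obtain ⟨l, hl, hl2⟩ := h5
      refine ⟨l, fun i hi => ?_, fun u => ?_⟩
      · exact (Finsupp.mem_supported F l).1 hl (Finsupp.mem_support_iff.2 hi)
      · rw [← hl2, Finsupp.linearCombination_apply, Finsupp.sum_fintype _ _ (by simp),
          LinearMap.sum_apply]
        rfl
    choose! a ha1 ha2 using hrel
    set N : Finset P.κ := Finset.univ.filter
      (fun k => j ∈ P.ty k ∧ P.ty k ≠ {j} ∧ k ∉ M.toFinset) with hN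
    have hNm : ∀ k ∈ N, k ∈ KK0 ∧ k ∉ M := by
      intro k hk
      have h1 := (Finset.mem_filter.1 hk).2
      exact ⟨⟨h1.1, h1.2.1⟩, fun h2 => h1.2.2 (Set.mem_toFinset.2 h2)⟩
    have hzero : ∀ k ∈ N, ∀ i ∈ N, a k i = 0 := by
      intro k hk i hi
      by_contra h1
      rcases ha1 k (hNm k hk).1 i h1 with h2 | h2
      · exact (hNm i hi).2 h2
      · exact (hNm i hi).1.2 h2
    set A : P.κ → P.κ → F := fun k i => (if i = k then 1 else 0) - a k i with hA
    have hAr : ∀ k ∈ N, ∀ u, ∑ i, A k i * ea2_phi P j b i u = 0 := by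
      intro k hk u
      simp only [hA, sub_mul, ite_mul, one_mul, zero_mul, Finset.sum_sub_distrib,
        Finset.sum_ite_eq', Finset.sum_ite_eq, Finset.mem_univ, if_true]
      rw [ha2 k (hNm k hk).1 u, sub_self]
    let c : N → relSpace P j y b := fun k =>
      ⟨fun x => if x.1.2 = (P.ty x.1.1).erase j then A k x.1.1 else 0,
        ea2_rel P j y b (A k) (hAr k k.2)⟩
    let E : relSpace P j y b →ₗ[F] (N → F) :=
      { toFun := fun r i => r.1 (ea2_idx P j i (hNm i i.2).1.1)
        map_add' := fun _ _ => rfl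
        map_smul' := fun _ _ => rfl }
    have hE : ∀ k : N, E (c k) = Pi.single k 1 := by
      intro k
      funext i
      show (if ((P.ty (i : P.κ)).erase j) = (P.ty (i : P.κ)).erase j then A k i else 0) = _
      rw [if_pos rfl]
      simp only [hA]
      rw [hzero k k.2 i i.2, sub_zero, Pi.single_apply]
      by_cases hik : i = k
      · subst hik; simp
      · rw [if_neg hik, if_neg (fun h => hik (Subtype.ext h))]
    have hli : LinearIndependent F c := by
      refine LinearIndependent.of_comp E ?_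
      have h1 : (E ∘ c) = fun k : N => Pi.single k (1 : F) := funext hE
      rw [h1]
      have h2 := (Pi.basisFun F N).linearIndependent
      convert h2 using 1
      funext k
      simp
    have h1 := hli.fintype_card_le_finrank
    rw [Fintype.card_coe] at h1
    exact h1

end PRAR
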