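import Pool.Agent.PRAR.E.Def

/-! # Section 6 (iii): U and a projection -/

set_option autoImplicit false
set_option linter.unusedSectionVars false

open scoped Classical

noncomputable section

namespace PRAR

variable {ι : Type} [Fintype ι] {F : Type} [Field F] [Fintype F]
variable {Y : Type} [AddCommGroup Y] [Module F Y] [Fintype Y]

/-- The linear form attached to a form whose type contains `j`, other slots zero. -/
def ea3_lin (P : Fam ι F Y) (j : ι) (k : P.κ) (hk : j ∈ P.ty k) : Y →ₗ[F] F where
  toFun u := P.p k (Function.update 0 j u)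
  map_add' u v := (P.lin k).add j hk 0 u v
  map_smul' c u := by simpa using (P.lin k).smul j hk 0 c u

/-- Its kernel, or everything when `j` is not in the type. -/
def ea3_ker (P : Fam ι F Y) (j : ι) (k : P.κ) : Submodule F Y :=
  if hk : j ∈ P.ty k then LinearMap.ker (ea3_lin P j k hk) else ⊤

theorem ea3_codim_ker (P : Fam ι F Y) (j : ι) (k : P.κ) (hk : j ∈ P.ty k) :
    codim (ea3_ker P j k) ≤ 1 := by
  unfold ea3_ker
  rw [dif_pos hk, codim_ker]
  calc Module.finrank F (LinearMap.range (ea3_lin P j k hk)) ≤ Module.finrank F F :=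
        Submodule.finrank_le _
    _ = 1 := Module.finrank_self F

/-- The linear forms of type `{j}` cut out `UU P j`. -/
theorem codim_UU_le (P : Fam ι F Y) (j : ι) :
    codim (UU P j) ≤ (Finset.univ.filter (fun k => P.ty k = {j})).card := by
  have h1 : UU P j = ⨅ k ∈ Finset.univ.filter (fun k => P.ty k = {j}), ea3_ker P j k := by
    ext u
    simp only [Submodule.mem_iInf, Finset.mem_filter, Finset.mem_univ, true_and]
    constructor
    · intro hu k hk
      have hj : j ∈ P.ty k := by rw [hk]; simp
      unfold ea3_ker
      rw [dif_pos hj, LinearMap.mem_ker]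
      exact hu k hk
    · intro hu k hk
      have hj : j ∈ P.ty k := by rw [hk]; simp
      have h2 := hu k hk
      unfold ea3_ker at h2
      rw [dif_pos hj, LinearMap.mem_ker] at h2
      exact h2
  rw [h1]
  refine (codim_iInf_le _ _ (fun _ => 1) ?_).trans ?_
  · intro k hk
    rw [Finset.mem_filter] at hk
    exact ea3_codim_ker P j k (by rw [hk.2]; simp)
  · simp

/-- A projection onto a subspace. -/
theorem exists_proj (U : Submodule F Y) :
    ∃ π : Y →ₗ[F] Y, (∀ x, π x ∈ U) ∧ (∀ x ∈ U, π x = x) ∧
      Module.finrank F (LinearMap.range (LinearMap.id - π)) = codim U := by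
  obtain ⟨W, hW⟩ := Submodule.exists_isCompl U
  refine ⟨U.subtype ∘ₗ Submodule.projectionOnto U W hW, ?_, ?_, ?_⟩
  · intro x
    simp
  · intro x hx
    have := Submodule.projectionOnto_apply_left hW ⟨x, hx⟩
    simp [this]
  · rw [← codim_ker]
    congr 1
    ext x
    rw [LinearMap.mem_ker, LinearMap.sub_apply, sub_eq_zero]
    constructor
    · intro h
      rw [LinearMap.id_apply] at h
      rw [h]
      simp
    · intro hx
      have := Submodule.projectionOnto_apply_left hW ⟨x, hx⟩
      simp [this]

end PRAR
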