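import Pool.Agent.PRAR.E.Def

/-! # Section 6 (iv): existence of the recursion, values in U -/

set_option autoImplicit false
set_option linter.unusedSectionVars false

open scoped Classical

noncomputable section

namespace PRAR

variable {ι : Type} [Fintype ι] {F : Type} [Field F] [Fintype F]
variable {Y : Type} [AddCommGroup Y] [Module F Y] [Fintype Y]

theorem eb1_ssub {A B J : Finset ι} (hA : A ⊆ B) (hJ : J ∈ A.ssubsets) :
    (B \ A) ∪ J ⊂ B := by
  have hJ' := Finset.mem_ssubsets.1 hJ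
  refine Finset.ssubset_iff_subset_ne.2 ⟨?_, ?_⟩
  · exact Finset.union_subset Finset.sdiff_subset (hJ'.1.trans hA)
  · intro h
    obtain ⟨x, hxA, hxJ⟩ := Finset.exists_of_ssubset hJ'
    have hx : x ∈ (B \ A) ∪ J := by rw [h]; exact hA hxA
    rcases Finset.mem_union.1 hx with h1 | h1
    · exact (Finset.mem_sdiff.1 h1).2 hxA
    · exact hxJ h1

theorem exists_neut (P : Fam ι F Y) (j : ι) (b : ι → Y) (Mn : Finset P.κ) (θ : P.κ → Y)
    (π : Y →ₗ[F] Y) : ∃ u, Neut P j b Mn θ π u := by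
  let G : (B : Finset ι) → ((C : Finset ι) → C ⊂ B → (ι → Y) → Y) → (ι → Y) → Y :=
    fun B ih y => if B.Nonempty then
      - ∑ k ∈ Mn.filter (fun k => (P.ty k).erase j ⊆ B),
      (∑ J ∈ ((P.ty k).erase j).ssubsets,
        P.p k (Function.update (J.piecewise b y) j
          (if h : ((B \ (P.ty k).erase j) ∪ J) ⊂ B then ih _ h y else 0))) • θ k
      else π (y j)
  let u : Finset ι → (ι → Y) → Y := fun B => Finset.strongInduction (p := fun _ => (ι → Y) → Y) G B
  have hu : ∀ B, u B = G B (fun C _ => u C) := fun B => Finset.strongInduction_eq G B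
  refine ⟨u, ?_, ?_⟩
  · intro y
    rw [hu]
    simp only [G]
    rw [if_neg (by simp)]
  · intro B hB y
    rw [hu]
    simp only [G]
    rw [if_pos hB]
    refine congrArg _ (Finset.sum_congr rfl fun k hk => ?_)
    refine congrArg (fun c => c • θ k) (Finset.sum_congr rfl fun J hJ => ?_)
    rw [dif_pos (eb1_ssub (Finset.mem_filter.1 hk).2 hJ)]

theorem neut_mem {P : Fam ι F Y} {j : ι} {b : ι → Y} {Mn : Finset P.κ} {θ : P.κ → Y}
    {π : Y →ₗ[F] Y} {u : Finset ι → (ι → Y) → Y} (h : Neut P j b Mn θ π u)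
    (hθ : ∀ k ∈ Mn, θ k ∈ UU P j) (hπ : ∀ x, π x ∈ UU P j) (B : Finset ι) (y : ι → Y) :
    u B y ∈ UU P j := by
  rcases B.eq_empty_or_nonempty with hB | hB
  · subst hB
    rw [h.empty]
    exact hπ _
  · rw [h.step B hB]
    refine (UU P j).neg_mem ((UU P j).sum_mem fun k hk => ?_)
    exact (UU P j).smul_mem _ (hθ k (Finset.mem_filter.1 hk).1)

end PRAR
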