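import Pool.Agent.PRAR.E.Def

/-! # Section 6 (iv): multilinearity -/

set_option autoImplicit false
set_option linter.unusedSectionVars false

open scoped Classical

noncomputable section

namespace PRAR

variable {ι : Type} [Fintype ι] {F : Type} [Field F] [Fintype F]
variable {Y : Type} [AddCommGroup Y] [Module F Y] [Fintype Y]

theorem neut_mlin {P : Fam ι F Y} {j : ι} {b : ι → Y} {Mn : Finset P.κ} {θ : P.κ → Y}
    {π : Y →ₗ[F] Y} {u : Finset ι → (ι → Y) → Y} (h : Neut P j b Mn θ π u)
    (hMn : ∀ k ∈ Mn, j ∈ P.ty k ∧ P.ty k ≠ {j}) (B : Finset ι) (hB : j ∉ B) :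
    MLin F (insert j B) (u B) := by
  induction B using Finset.strongInduction with
  | H B ih =>
    by_cases hne : B.Nonempty
    · have he : u B = fun y => - ∑ k ∈ Mn.filter (fun k => (P.ty k).erase j ⊆ B),
          (∑ J ∈ ((P.ty k).erase j).ssubsets,
            P.p k (Function.update (J.piecewise b y) j
              (u ((B \ (P.ty k).erase j) ∪ J) y))) • θ k := funext (h.step B hne)
      rw [he]
      refine (MLin.sum' _ fun k hk => ?_).neg'
      obtain ⟨hkM, hkB⟩ := Finset.mem_filter.1 hk
      have hj : j ∈ P.ty k := (hMn k hkM).1
      have h1 : MLin F (insert j B) (fun y => ∑ J ∈ ((P.ty k).erase j).ssubsets,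
          P.p k (Function.update (J.piecewise b y) j
            (u ((B \ (P.ty k).erase j) ∪ J) y))) := by
        refine MLin.sum' _ fun J hJ => ?_
        have hJs : J ⊂ (P.ty k).erase j := Finset.mem_ssubsets.1 hJ
        have hJE : J ⊆ (P.ty k).erase j := hJs.1
        have hjE : j ∉ (P.ty k).erase j := Finset.notMem_erase j _
        have hlt : (B \ (P.ty k).erase j) ∪ J ⊂ B := by
          refine ⟨Finset.union_subset Finset.sdiff_subset (hJE.trans hkB), fun hs => hJs.2 ?_⟩
          intro i hi
          rcases Finset.mem_union.1 (hs (hkB hi)) with h2 | h2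
          · exact absurd hi (Finset.mem_sdiff.1 h2).2
          · exact h2
        have hjn : j ∉ (B \ (P.ty k).erase j) ∪ J := by
          intro h2
          exact hB (hlt.1 h2)
        have h2 := ih _ hlt hjn
        have hd : Disjoint (((P.ty k).erase j) \ J)
            (insert j ((B \ (P.ty k).erase j) ∪ J)) := by
          rw [Finset.disjoint_left]
          intro i hi hi2
          obtain ⟨hi3, hi4⟩ := Finset.mem_sdiff.1 hi
          rcases Finset.mem_insert.1 hi2 with h5 | h5
          · exact hjE (h5 ▸ hi3)
          · rcases Finset.mem_union.1 h5 with h6 | h6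
            · exact (Finset.mem_sdiff.1 h6).2 hi3
            · exact hi4 h6
        have h3 := (P.lin k).subst hj J b h2 hd
        have he2 : insert j B = (((P.ty k).erase j) \ J) ∪
            insert j ((B \ (P.ty k).erase j) ∪ J) := by
          ext i
          have h7 := @hkB i
          have h8 := @hJE i
          simp only [Finset.mem_insert, Finset.mem_union, Finset.mem_sdiff]
          tauto
        rw [he2]
        exact h3
      exact h1.comp (LinearMap.toSpanSingleton F Y (θ k))
    · rw [Finset.not_nonempty_iff_eq_empty] at hne
      subst hne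
      have he : u ∅ = fun y => π (y j) := funext h.empty
      rw [he]
      refine ⟨?_, ?_, ?_⟩
      · intro i hi y v w
        have hi' : i = j := by simpa using hi
        subst hi'
        simp
      · intro i hi y c v
        have hi' : i = j := by simpa using hi
        subst hi'
        simp
      · intro i hi y v
        have hi' : i ≠ j := by simpa using hi
        rw [Function.update_of_ne hi'.symm]

end PRAR
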