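import Pool.Agent.PRAR.E.Def

/-! # Section 6 (iv): the identities (N) -/

set_option autoImplicit false
set_option linter.unusedSectionVars false

open scoped Classical

noncomputable section

namespace PRAR

variable {ι : Type} [Fintype ι] {F : Type} [Field F] [Fintype F]
variable {Y : Type} [AddCommGroup Y] [Module F Y] [Fintype Y]

/-- `p_k (b, ·)` as a linear map. -/
def eb3_lin (P : Fam ι F Y) (j : ι) (b : ι → Y) (k : P.κ) (hk : j ∈ P.ty k) : Y →ₗ[F] F where
  toFun u := P.p k (Function.update b j u)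
  map_add' u v := (P.lin k).add j hk b u v
  map_smul' c u := by simpa using (P.lin k).smul j hk b c u

/-- The identities (N). -/
theorem neut_N {P : Fam ι F Y} {j : ι} {b : ι → Y} {Mn : Finset P.κ} {θ : P.κ → Y}
    {π : Y →ₗ[F] Y} {u : Finset ι → (ι → Y) → Y} (h : Neut P j b Mn θ π u)
    (hMn : ∀ k ∈ Mn, j ∈ P.ty k ∧ P.ty k ≠ {j})
    (hθ : ∀ k ∈ Mn, ∀ k' ∈ Mn, P.p k' (Function.update b j (θ k)) = if k' = k then 1 else 0)
    (k : P.κ) (hk : k ∈ Mn) (D : Finset ι) (hD : Disjoint D ((P.ty k).erase j)) (y : ι → Y) :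
    ∑ J ∈ ((P.ty k).erase j).powerset,
      P.p k (Function.update (J.piecewise b y) j (u (D ∪ J) y)) = 0 := by
  obtain ⟨hj, hne⟩ := hMn k hk
  have hne' : ((P.ty k).erase j).Nonempty := by
    rw [Finset.nonempty_iff_ne_empty]
    intro h0
    rw [Finset.erase_eq_empty_iff] at h0
    rcases h0 with h0 | h0
    · rw [h0] at hj; simp at hj
    · exact hne h0
  obtain ⟨I', hI'⟩ : ∃ I' : Finset ι, I' = (P.ty k).erase j := ⟨_, rfl⟩
  rw [← hI'] at hD hne' ⊢
  have hB : (D ∪ I').Nonempty := hne'.mono Finset.subset_union_right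
  -- the vector `u (D ∪ I')`
  have hstep := h.step (D ∪ I') hB y
  -- the `J = I'` term
  have h1 : P.p k (Function.update (I'.piecewise b y) j (u (D ∪ I') y)) =
      P.p k (Function.update b j (u (D ∪ I') y)) := by
    apply (P.lin k).congr
    intro i hi
    by_cases hij : i = j
    · subst hij; simp
    · have : i ∈ I' := by rw [hI']; exact Finset.mem_erase.2 ⟨hij, hi⟩
      simp [Function.update_of_ne hij, Finset.piecewise, this]
  have h2 : P.p k (Function.update b j (u (D ∪ I') y)) =
      - ∑ J ∈ I'.ssubsets, P.p k (Function.update (J.piecewise b y) j (u (D ∪ J) y)) := by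
    have hlin : ∀ w, P.p k (Function.update b j w) = eb3_lin P j b k hj w := fun w => rfl
    have hkB : k ∈ Mn.filter (fun k => (P.ty k).erase j ⊆ D ∪ I') :=
      Finset.mem_filter.2 ⟨hk, by rw [← hI']; exact Finset.subset_union_right⟩
    rw [hlin, hstep, map_neg, map_sum, neg_inj]
    rw [Finset.sum_eq_single_of_mem k hkB]
    · rw [map_smul, ← hlin, hθ k hk k hk, if_pos rfl, smul_eq_mul, mul_one, ← hI']
      refine Finset.sum_congr rfl fun J hJ => ?_
      have hDI : (D ∪ I') \ I' = D := by
        rw [Finset.union_sdiff_right]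
        exact Finset.sdiff_eq_self_of_disjoint hD
      rw [hDI]
    · intro k' hk' hkk
      have hk'Mn := (Finset.mem_filter.1 hk').1
      rw [map_smul, ← hlin, hθ k' hk'Mn k hk, if_neg (fun h => hkk h.symm), smul_zero]
  have h3 : I' ∈ I'.powerset := Finset.mem_powerset.2 le_rfl
  rw [← Finset.add_sum_erase _ _ h3, h1, h2, Finset.ssubsets]
  exact neg_add_cancel _

end PRAR
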