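import Pool.Agent.PRAR.E.B2

/-! # Section 6 (iv): factorisation -/

set_option autoImplicit false
set_option linter.unusedSectionVars false

open scoped Classical

noncomputable section

namespace PRAR

variable {ι : Type} [Fintype ι] {F : Type} [Field F] [Fintype F]
variable {Y : Type} [AddCommGroup Y] [Module F Y] [Fintype Y]

/-- The candidate for `ω B k''`, given the maps for smaller sets. -/
def eb4_om (P : Fam ι F Y) (j : ι) (b : ι → Y) (Mn : Finset P.κ) (θ : P.κ → Y)
    (W : Finset ι → P.κ → (ι → Y) → Y) (B : Finset ι) (k' : P.κ) (y : ι → Y) : Y :=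
  - ∑ k ∈ Mn.filter (fun k => (P.ty k).erase j ⊆ B), ∑ J ∈ ((P.ty k).erase j).ssubsets,
    if (B \ (P.ty k).erase j) ∪ J = ∅ then (if k' = k then θ k else 0)
    else if (P.ty k').erase j ⊆ (B \ (P.ty k).erase j) ∪ J then
      P.p k (Function.update (J.piecewise b y) j (W ((B \ (P.ty k).erase j) ∪ J) k' y)) • θ k
    else 0

theorem eb4_ssub {I B J : Finset ι} (hI : I ⊆ B) (hJ : J ⊂ I) : (B \ I) ∪ J ⊂ B := by
  rw [Finset.ssubset_iff_subset_ne]
  refine ⟨Finset.union_subset Finset.sdiff_subset (hJ.1.trans hI), fun h => ?_⟩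
  apply hJ.2
  intro x hx
  have hxB : x ∈ (B \ I) ∪ J := by rw [h]; exact hI hx
  rcases Finset.mem_union.1 hxB with h1 | h1
  · exact absurd hx (Finset.mem_sdiff.1 h1).2
  · exact h1

theorem eb4_set {I B J K : Finset ι} (hI : I ⊆ B) (hJ : J ⊂ I) (hK : K ⊆ (B \ I) ∪ J) :
    (I \ J) ∪ (((B \ I) ∪ J) \ K) = B \ K := by
  ext x
  simp only [Finset.mem_union, Finset.mem_sdiff]
  constructor
  · rintro (⟨h1, h2⟩ | ⟨h1 | h1, h2⟩)
    · refine ⟨hI h1, fun h3 => ?_⟩
      rcases Finset.mem_union.1 (hK h3) with h4 | h4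
      · exact (Finset.mem_sdiff.1 h4).2 h1
      · exact h2 h4
    · exact ⟨h1.1, h2⟩
    · exact ⟨hI (hJ.1 h1), h2⟩
  · rintro ⟨h1, h2⟩
    by_cases h3 : x ∈ I
    · by_cases h4 : x ∈ J
      · exact Or.inr ⟨Or.inr h4, h2⟩
      · exact Or.inl ⟨h3, h4⟩
    · exact Or.inr ⟨Or.inl ⟨h1, h3⟩, h2⟩

theorem eb4_disj {I B J K : Finset ι} : Disjoint (I \ J) (((B \ I) ∪ J) \ K) := by
  rw [Finset.disjoint_left]
  intro x hx hx2
  rcases Finset.mem_union.1 (Finset.mem_sdiff.1 hx2).1 with h | h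
  · exact (Finset.mem_sdiff.1 h).2 (Finset.mem_sdiff.1 hx).1
  · exact (Finset.mem_sdiff.1 hx).2 h

theorem eb4_mlin {P : Fam ι F Y} {j : ι} {b : ι → Y} {Mn : Finset P.κ} {θ : P.κ → Y}
    (hMn : ∀ k ∈ Mn, j ∈ P.ty k ∧ P.ty k ≠ {j}) {B : Finset ι}
    {W : Finset ι → P.κ → (ι → Y) → Y}
    (hW : ∀ B', B' ⊂ B → B'.Nonempty → ∀ k ∈ Mn, (P.ty k).erase j ⊆ B' →
      MLin F (B' \ (P.ty k).erase j) (W B' k)) {k' : P.κ} (hk' : k' ∈ Mn)
    (hB' : (P.ty k').erase j ⊆ B) :
    MLin F (B \ (P.ty k').erase j) (eb4_om P j b Mn θ W B k') := by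
  unfold eb4_om
  refine MLin.neg' (MLin.sum' _ fun k hk => MLin.sum' _ fun J hJ => ?_)
  rw [Finset.mem_filter] at hk
  rw [Finset.mem_ssubsets] at hJ
  by_cases h0 : (B \ (P.ty k).erase j) ∪ J = ∅
  · simp only [h0, if_true]
    by_cases hkk : k' = k
    · subst hkk
      simp only [if_true]
      have h1 : B \ (P.ty k').erase j = ∅ := (Finset.union_eq_empty.1 h0).1
      rw [h1]
      exact ⟨fun i hi => absurd hi (Finset.notMem_empty i),
        fun i hi => absurd hi (Finset.notMem_empty i), fun i _ y u => rfl⟩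
    · simp only [if_neg hkk]
      exact MLin.zero _
  · simp only [if_neg h0]
    by_cases hs : (P.ty k').erase j ⊆ (B \ (P.ty k).erase j) ∪ J
    · simp only [if_pos hs]
      have hg := hW _ (eb4_ssub hk.2 hJ) (Finset.nonempty_iff_ne_empty.2 h0) k' hk' hs
      have h2 := (P.lin k).subst (hMn k hk.1).1 J b hg eb4_disj
      rw [eb4_set hk.2 hJ hs] at h2
      exact h2.comp (LinearMap.toSpanSingleton F Y (θ k))
    · simp only [if_neg hs]
      exact MLin.zero _

theorem eb4_eq {P : Fam ι F Y} {j : ι} {b : ι → Y} {Mn : Finset P.κ} {θ : P.κ → Y}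
    {π : Y →ₗ[F] Y} {u : Finset ι → (ι → Y) → Y} (h : Neut P j b Mn θ π u)
    (hMn : ∀ k ∈ Mn, j ∈ P.ty k ∧ P.ty k ≠ {j}) {B : Finset ι} (hB : B.Nonempty)
    {W : Finset ι → P.κ → (ι → Y) → Y}
    (hW : ∀ B', B' ⊂ B → B'.Nonempty → ∀ y,
      u B' y = ∑ k ∈ Mn.filter (fun k => (P.ty k).erase j ⊆ B'),
        P.p k (Function.update y j (π (y j))) • W B' k y) (y : ι → Y) :
    u B y = ∑ k ∈ Mn.filter (fun k => (P.ty k).erase j ⊆ B),
      P.p k (Function.update y j (π (y j))) • eb4_om P j b Mn θ W B k y := by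
  rw [h.step B hB y]
  have key : ∀ k ∈ Mn.filter (fun k => (P.ty k).erase j ⊆ B),
      ∀ J ∈ ((P.ty k).erase j).ssubsets,
      P.p k (Function.update (J.piecewise b y) j (u ((B \ (P.ty k).erase j) ∪ J) y)) • θ k =
      ∑ k' ∈ Mn.filter (fun k => (P.ty k).erase j ⊆ B),
        P.p k' (Function.update y j (π (y j))) •
        (if (B \ (P.ty k).erase j) ∪ J = ∅ then (if k' = k then θ k else 0)
        else if (P.ty k').erase j ⊆ (B \ (P.ty k).erase j) ∪ J then
          P.p k (Function.update (J.piecewise b y) j (W ((B \ (P.ty k).erase j) ∪ J) k' y)) • θ k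
        else 0) := by
    intro k hk J hJ
    have hk2 := (Finset.mem_filter.1 hk).2
    have hk1 := (Finset.mem_filter.1 hk).1
    rw [Finset.mem_ssubsets] at hJ
    by_cases h0 : (B \ (P.ty k).erase j) ∪ J = ∅
    · simp only [h0, if_true]
      have hJ0 : J = ∅ := (Finset.union_eq_empty.1 h0).2
      rw [Finset.sum_eq_single k]
      · rw [if_pos rfl, hJ0, Finset.piecewise_empty, h.empty]
      · intro k' _ hne
        rw [if_neg hne, smul_zero]
      · intro hn
        exact absurd hk hn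
    · simp only [if_neg h0]
      have hss := eb4_ssub hk2 hJ
      have hne : ((B \ (P.ty k).erase j) ∪ J).Nonempty := Finset.nonempty_iff_ne_empty.2 h0
      set B' : Finset ι := (B \ (P.ty k).erase j) ∪ J with hB'
      rw [hW B' hss hne y]
      have hlin : ∀ (s : Finset P.κ) (c : P.κ → F) (v : P.κ → Y),
          P.p k (Function.update (J.piecewise b y) j (∑ x ∈ s, c x • v x)) =
          ∑ x ∈ s, c x * P.p k (Function.update (J.piecewise b y) j (v x)) := by
        intro s c v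
        have := map_sum (slotMap (P.lin k) (hMn k hk1).1 (J.piecewise b y))
          (fun x => c x • v x) s
        simp only [map_smul, smul_eq_mul] at this
        exact this
      rw [hlin, Finset.sum_smul]
      have hsub : Mn.filter (fun k => (P.ty k).erase j ⊆ B') ⊆
          Mn.filter (fun k => (P.ty k).erase j ⊆ B) := by
        intro x hx
        rw [Finset.mem_filter] at hx ⊢
        exact ⟨hx.1, hx.2.trans hss.1⟩
      rw [← Finset.sum_subset hsub]
      · refine Finset.sum_congr rfl fun x hx => ?_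
        rw [if_pos (Finset.mem_filter.1 hx).2, mul_smul]
      · intro x hx hx2
        have : ¬ (P.ty x).erase j ⊆ B' := fun hc =>
          hx2 (Finset.mem_filter.2 ⟨(Finset.mem_filter.1 hx).1, hc⟩)
        rw [if_neg this, smul_zero]
  have step2 : ∑ k ∈ Mn.filter (fun k => (P.ty k).erase j ⊆ B),
      (∑ J ∈ ((P.ty k).erase j).ssubsets,
        P.p k (Function.update (J.piecewise b y) j (u ((B \ (P.ty k).erase j) ∪ J) y))) • θ k =
      ∑ k ∈ Mn.filter (fun k => (P.ty k).erase j ⊆ B), ∑ J ∈ ((P.ty k).erase j).ssubsets,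
      ∑ k' ∈ Mn.filter (fun k => (P.ty k).erase j ⊆ B),
        P.p k' (Function.update y j (π (y j))) •
        (if (B \ (P.ty k).erase j) ∪ J = ∅ then (if k' = k then θ k else 0)
        else if (P.ty k').erase j ⊆ (B \ (P.ty k).erase j) ∪ J then
          P.p k (Function.update (J.piecewise b y) j (W ((B \ (P.ty k).erase j) ∪ J) k' y)) • θ k
        else 0) := by
    refine Finset.sum_congr rfl fun k hk => ?_
    rw [Finset.sum_smul]
    exact Finset.sum_congr rfl fun J hJ => key k hk J hJ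
  rw [step2]
  unfold eb4_om
  simp only [smul_neg, Finset.smul_sum, Finset.sum_neg_distrib]
  congr 1
  rw [Finset.sum_congr rfl fun k _ => Finset.sum_comm]
  rw [Finset.sum_comm]

/-- Factorisation of `u B` through the forms `p_k`. -/
theorem neut_factor {P : Fam ι F Y} {j : ι} {b : ι → Y} {Mn : Finset P.κ} {θ : P.κ → Y}
    {π : Y →ₗ[F] Y} {u : Finset ι → (ι → Y) → Y} (h : Neut P j b Mn θ π u)
    (hMn : ∀ k ∈ Mn, j ∈ P.ty k ∧ P.ty k ≠ {j}) :
    ∃ ω : Finset ι → P.κ → (ι → Y) → Y, ∀ B : Finset ι, B.Nonempty → j ∉ B →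
      (∀ k ∈ Mn, (P.ty k).erase j ⊆ B → MLin F (B \ (P.ty k).erase j) (ω B k)) ∧
      ∀ y, u B y = ∑ k ∈ Mn.filter (fun k => (P.ty k).erase j ⊆ B),
        P.p k (Function.update y j (π (y j))) • ω B k y := by
  have main : ∀ B : Finset ι, B.Nonempty → j ∉ B → ∃ ω : P.κ → (ι → Y) → Y,
      (∀ k ∈ Mn, (P.ty k).erase j ⊆ B → MLin F (B \ (P.ty k).erase j) (ω k)) ∧
      ∀ y, u B y = ∑ k ∈ Mn.filter (fun k => (P.ty k).erase j ⊆ B),
        P.p k (Function.update y j (π (y j))) • ω k y := by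
    intro B
    induction B using Finset.strongInduction with
    | H B ih =>
      intro hB hj
      choose! W hW using ih
      have hW1 : ∀ B', B' ⊂ B → B'.Nonempty → ∀ k ∈ Mn, (P.ty k).erase j ⊆ B' →
          MLin F (B' \ (P.ty k).erase j) (W B' k) := fun B' h1 h2 =>
        (hW B' h1 h2 (fun hc => hj (h1.1 hc))).1
      have hW2 : ∀ B', B' ⊂ B → B'.Nonempty → ∀ y,
          u B' y = ∑ k ∈ Mn.filter (fun k => (P.ty k).erase j ⊆ B'),
            P.p k (Function.update y j (π (y j))) • W B' k y := fun B' h1 h2 =>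
        (hW B' h1 h2 (fun hc => hj (h1.1 hc))).2
      exact ⟨eb4_om P j b Mn θ W B, fun k hk hkB => eb4_mlin hMn hW1 hk hkB,
        fun y => eb4_eq h hMn hB hW2 y⟩
  choose! ω hω using main
  exact ⟨ω, fun B hB hj => hω B hB hj⟩

end PRAR
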