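import Pool.Agent.PRAR.E.Def

/-! # Section 6 (iv): the corrected map is multilinear -/

set_option autoImplicit false
set_option linter.unusedSectionVars false

open scoped Classical

noncomputable section

namespace PRAR

variable {ι : Type} [Fintype ι] {F : Type} [Field F] [Fintype F]
variable {Y V : Type} [AddCommGroup Y] [Module F Y] [Fintype Y] [AddCommGroup V] [Module F V]
  [Fintype V]

theorem TT_mlin {A IT : Finset ι} {j : ι} (hjA : j ∈ A) (hA : A ⊆ IT) {T : (ι → Y) → V}
    (hT : MLin F IT T) (b : ι → Y) {u : Finset ι → (ι → Y) → Y}
    (hu : ∀ B : Finset ι, j ∉ B → MLin F (insert j B) (u B)) :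
    MLin F IT (TT T (A.erase j) b j u) := by
  have key : ∀ B ∈ (A.erase j).powerset,
      MLin F IT (fun y => T (Function.update (B.piecewise b y) j (u B y))) := by
    intro B hB
    rw [Finset.mem_powerset] at hB
    have hjB : j ∉ B := fun h => by simpa using hB h
    have hBI : B ⊆ IT := fun x hx => hA (Finset.mem_of_mem_erase (hB hx))
    have hd : Disjoint ((IT.erase j) \ B) (insert j B) := by
      rw [Finset.disjoint_left]
      intro x hx hx2
      simp only [Finset.mem_sdiff, Finset.mem_erase] at hx
      rcases Finset.mem_insert.1 hx2 with h | h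
      · exact hx.1.1 h
      · exact hx.2 h
    have h := MLin.subst hT (hA hjA) B b (hu B hjB) hd
    have he : ((IT.erase j) \ B) ∪ insert j B = IT := by
      ext x
      simp only [Finset.mem_union, Finset.mem_sdiff, Finset.mem_erase, Finset.mem_insert]
      constructor
      · rintro (h | h | h)
        · exact h.1.2
        · rw [h]; exact hA hjA
        · exact hBI h
      · intro hx
        by_cases h1 : x = j
        · exact Or.inr (Or.inl h1)
        · by_cases h2 : x ∈ B
          · exact Or.inr (Or.inr h2)
          · exact Or.inl ⟨⟨h1, hx⟩, h2⟩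
    rwa [he] at h
  exact MLin.sum' _ key

end PRAR
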