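import Pool.Agent.PRAR.E.B4
import Pool.Agent.PRAR.E.A3
import Pool.Agent.PRAR.E.C1

/-! # Section 6 (iv): cost of the correction -/

set_option autoImplicit false
set_option linter.unusedSectionVars false

open scoped Classical

noncomputable section

namespace PRAR

variable {ι : Type} [Fintype ι] {F : Type} [Field F] [Fintype F]
variable {Y V : Type} [AddCommGroup Y] [Module F Y] [Fintype Y] [AddCommGroup V] [Module F V]
  [Fintype V]

theorem ec2_lin_slot (j : ι) (L : Y →ₗ[F] Y) : MLin F {j} (fun y : ι → Y => L (y j)) := by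
  refine ⟨?_, ?_, ?_⟩
  · intro i hi y u v
    rw [Finset.mem_singleton] at hi
    subst hi
    simp
  · intro i hi y c u
    rw [Finset.mem_singleton] at hi
    subst hi
    simp
  · intro i hi y u
    rw [Finset.mem_singleton] at hi
    have : (Function.update y i u) j = y j := Function.update_of_ne (fun h => hi h.symm) _ _
    simp only [this]

theorem ec2_form {I : Finset ι} {p : (ι → Y) → F} (hp : MLin F I p) {j : ι} (hj : j ∈ I)
    (L : Y →ₗ[F] Y) : MLin F I (fun y => p (Function.update y j (L (y j)))) := by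
  have h := MLin.subst hp hj ∅ (0 : ι → Y) (ec2_lin_slot j L) (by simp)
  have hI : ((I.erase j) \ ∅) ∪ {j} = I := by
    ext i
    by_cases hij : i = j
    · subst hij; simp [hj]
    · simp [hij]
  rw [hI] at h
  simpa using h

theorem ec2_set {A IT J B : Finset ι} {j : ι} (hA : A ⊆ IT) (hjJ : j ∈ J)
    (hJB : J.erase j ⊆ B) (hB : B ⊆ A.erase j) :
    ((IT.erase j) \ B) ∪ (B \ J.erase j) = IT \ J := by
  ext i
  simp only [Finset.mem_union, Finset.mem_sdiff, Finset.mem_erase]
  constructor
  · rintro (⟨⟨h1, h2⟩, h3⟩ | ⟨h1, h2⟩)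
    · refine ⟨h2, fun h4 => h3 (hJB (Finset.mem_erase.2 ⟨h1, h4⟩))⟩
    · have h3 := Finset.mem_erase.1 (hB h1)
      exact ⟨hA h3.2, fun h4 => h2 ⟨h3.1, h4⟩⟩
  · rintro ⟨h1, h2⟩
    have hij : i ≠ j := fun h => h2 (h ▸ hjJ)
    by_cases hi : i ∈ B
    · exact Or.inr ⟨hi, fun h => h2 h.2⟩
    · exact Or.inl ⟨⟨hij, h1⟩, hi⟩

theorem TT_cost {A IT : Finset ι} {j : ι} (hjA : j ∈ A) (hA : A ⊆ IT) {T : (ι → Y) → V}
    (hT : MLin F IT T) {P : Fam ι F Y} (hP : P.On A) {b : ι → Y} {Mn : Finset P.κ} {θ : P.κ → Y}
    {π : Y →ₗ[F] Y} {u : Finset ι → (ι → Y) → Y} (h : Neut P j b Mn θ π u)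
    (hMn : ∀ k ∈ Mn, j ∈ P.ty k ∧ P.ty k ≠ {j})
    (hπ : Module.finrank F (LinearMap.range (LinearMap.id - π)) = codim (UU P j)) :
    PRle F IT (T - TT T (A.erase j) b j u) P.card := by
  have hjT : j ∈ IT := hA hjA
  have hne : IT.Nonempty := ⟨j, hjT⟩
  obtain ⟨ω, hω⟩ := neut_factor h hMn
  -- the index set of the inner sum
  set R : P.κ → Finset (Finset ι) := fun k =>
    (A.erase j).powerset.filter (fun B => B.Nonempty ∧ (P.ty k).erase j ⊆ B) with hR
  set w : P.κ → (ι → Y) → V := fun k y =>
    ∑ B ∈ R k, T (Function.update (B.piecewise b y) j (ω B k y)) with hw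
  -- the second bracket
  have hsecond : ∀ y, ∑ B ∈ (A.erase j).powerset.filter (fun B => B.Nonempty),
      T (Function.update (B.piecewise b y) j (u B y)) =
      ∑ k ∈ Mn, P.p k (Function.update y j (π (y j))) • w k y := by
    intro y
    have h1 : ∀ B ∈ (A.erase j).powerset.filter (fun B => B.Nonempty),
        T (Function.update (B.piecewise b y) j (u B y)) =
        ∑ k ∈ Mn, if (P.ty k).erase j ⊆ B then P.p k (Function.update y j (π (y j))) •
          T (Function.update (B.piecewise b y) j (ω B k y)) else 0 := by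
      intro B hB
      rw [Finset.mem_filter, Finset.mem_powerset] at hB
      have hjB : j ∉ B := fun hj => (Finset.notMem_erase j A) (hB.1 hj)
      rw [(hω B hB.2 hjB).2 y]
      have h2 := map_sum (slotMap hT hjT (B.piecewise b y))
        (fun k => P.p k (Function.update y j (π (y j))) • ω B k y)
        (Mn.filter (fun k => (P.ty k).erase j ⊆ B))
      have h3 : ∀ x, slotMap hT hjT (B.piecewise b y) x =
        T (Function.update (B.piecewise b y) j x) := fun x => rfl
      rw [← h3, h2, Finset.sum_filter]
      refine Finset.sum_congr rfl fun k _ => ?_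
      split_ifs
      · rw [map_smul, h3]
      · rfl
    rw [Finset.sum_congr rfl h1, Finset.sum_comm]
    refine Finset.sum_congr rfl fun k _ => ?_
    rw [hw]
    simp only
    rw [Finset.smul_sum, hR]
    simp only
    rw [← Finset.sum_filter, Finset.filter_filter]
  have hdecomp : ∀ y, (T - TT T (A.erase j) b j u) y =
      T (Function.update y j (((LinearMap.id : Y →ₗ[F] Y) - π) (y j))) +
      ∑ k ∈ Mn, P.p k (Function.update y j (π (y j))) • (- w k y) := by
    intro y
    have h1 : T y = T (Function.update y j (π (y j))) +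
        T (Function.update y j (((LinearMap.id : Y →ₗ[F] Y) - π) (y j))) := by
      rw [← hT.add j hjT]
      have : π (y j) + ((LinearMap.id : Y →ₗ[F] Y) - π) (y j) = y j := by simp
      rw [this, Function.update_eq_self]
    have h2 : TT T (A.erase j) b j u y = T (Function.update y j (π (y j))) +
        ∑ B ∈ (A.erase j).powerset.filter (fun B => B.Nonempty),
          T (Function.update (B.piecewise b y) j (u B y)) := by
      unfold TT
      rw [← Finset.sum_filter_add_sum_filter_not (A.erase j).powerset (fun B => B.Nonempty),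
        add_comm]
      congr 1
      have h3 : (A.erase j).powerset.filter (fun B => ¬ B.Nonempty) = {∅} := by
        ext B
        simp only [Finset.mem_filter, Finset.mem_powerset, Finset.mem_singleton,
          Finset.not_nonempty_iff_eq_empty]
        constructor
        · exact fun h => h.2
        · rintro rfl
          exact ⟨Finset.empty_subset _, rfl⟩
      rw [h3, Finset.sum_singleton, h.empty y]
      simp
    rw [Pi.sub_apply, h2, hsecond y, h1]
    simp only [smul_neg, Finset.sum_neg_distrib]
    abel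
  have hfirst := PRle_slot hT hjT ((LinearMap.id : Y →ₗ[F] Y) - π)
  rw [hπ] at hfirst
  have hprod : ∀ k ∈ Mn, PRle F IT
      (fun y => P.p k (Function.update y j (π (y j))) • (- w k y)) 1 := by
    intro k hk
    have hjk := (hMn k hk).1
    refine PRle.of_isProd ⟨P.ty k, P.ne k, (hP k).trans hA, _, _,
      ec2_form (P.lin k) hjk π, ?_, fun y => rfl⟩
    refine MLin.neg' (MLin.sum' _ ?_)
    intro B hB
    rw [hR, Finset.mem_filter, Finset.mem_powerset] at hB
    have hjB : j ∉ B := fun hj => (Finset.notMem_erase j A) (hB.1 hj)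
    have hg := (hω B hB.2.1 hjB).1 k hk hB.2.2
    have := MLin.subst hT hjT B b hg (by
      rw [Finset.disjoint_left]
      intro i hi hi'
      exact (Finset.mem_sdiff.1 hi).2 (Finset.mem_sdiff.1 hi').1)
    rwa [ec2_set hA hjk hB.2.2 hB.1] at this
  have hsum := PRle.sum hne Mn hprod
  refine ((hfirst.add hsum).of_eq hdecomp).mono hne ?_
  have h1 := codim_UU_le P j
  have h2 : (Finset.univ.filter (fun k => P.ty k = {j})).card + Mn.card ≤ P.card := by
    rw [← Finset.card_union_of_disjoint]
    · exact Finset.card_le_univ _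
    · rw [Finset.disjoint_left]
      intro k hk hk'
      exact (hMn k hk').2 (Finset.mem_filter.1 hk).2
  omega

end PRAR
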