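import Pool.Agent.PRAR.E.Def

/-! # Section 6 (v): linear algebra (duality) -/

set_option autoImplicit false
set_option linter.unusedSectionVars false

open scoped Classical

noncomputable section

namespace PRAR

section duality

variable {F : Type} [Field F] [Fintype F]
variable {X Z W : Type} [AddCommGroup X] [Module F X] [Fintype X] [AddCommGroup Z] [Module F Z]
  [Fintype Z] [AddCommGroup W] [Module F W] [FiniteDimensional F W]

/-- If the functionals which vanish on `SS` and satisfy the linear conditions `θ ψ = 0` vanish on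
the range of `Φ`, then `Φ x ∈ SS` is at most `rank θ` conditions. -/
theorem dual_codim (Φ : X →ₗ[F] Z) (SS : Submodule F Z) (θ : SS.dualAnnihilator →ₗ[F] W)
    (h : ∀ ψ : SS.dualAnnihilator, θ ψ = 0 → ∀ x, ψ.1 (Φ x) = 0) :
    codim (SS.comap Φ) ≤ Module.finrank F (LinearMap.range θ) := by
  -- the composite `X → Z ⧸ SS`
  have hker : SS.comap Φ = LinearMap.ker (SS.mkQ ∘ₗ Φ) := by
    rw [LinearMap.ker_comp, Submodule.ker_mkQ]
  haveI : Finite (Z ⧸ SS) := inferInstance
  have h1 : codim (SS.comap Φ) = Module.finrank F (LinearMap.range (SS.mkQ ∘ₗ Φ)) := by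
    have := LinearMap.finrank_range_add_finrank_ker (SS.mkQ ∘ₗ Φ)
    rw [codim, hker]
    omega
  -- the dual map
  obtain ⟨R, hR⟩ : ∃ R : SS.dualAnnihilator →ₗ[F] Module.Dual F X,
      R = Φ.dualMap ∘ₗ SS.dualAnnihilator.subtype := ⟨_, rfl⟩
  have h2 : Module.finrank F (LinearMap.range R) ≤ Module.finrank F (LinearMap.range θ) := by
    have hk : LinearMap.ker θ ≤ LinearMap.ker R := by
      intro ψ hψ
      rw [LinearMap.mem_ker] at hψ ⊢
      rw [hR]
      ext x
      exact h ψ hψ x
    have h3 := LinearMap.finrank_range_add_finrank_ker (K := F) (V := SS.dualAnnihilator) θ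
    have h4 := LinearMap.finrank_range_add_finrank_ker (K := F) (V := SS.dualAnnihilator) R
    have h5 := Submodule.finrank_mono hk
    omega
  have h3 : Module.finrank F (LinearMap.range (SS.mkQ ∘ₗ Φ)) ≤
      Module.finrank F (LinearMap.range R) := by
    rw [← LinearMap.finrank_range_dualMap_eq_finrank_range (SS.mkQ ∘ₗ Φ)]
    apply Submodule.finrank_mono
    rintro _ ⟨ψ, rfl⟩
    refine ⟨⟨SS.mkQ.dualMap ψ, ?_⟩, ?_⟩
    · rw [Submodule.mem_dualAnnihilator]
      intro w hw
      simp only [LinearMap.dualMap_apply]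
      rw [Submodule.mkQ_apply, (Submodule.Quotient.mk_eq_zero SS).2 hw, map_zero]
    · rw [hR]
      rfl
  rw [h1]
  exact h3.trans h2

/-- A functional vanishing on the common kernel of finitely many functionals is a combination of
them, with coefficients depending linearly on the functional. -/
theorem exists_coeff {κ : Type} [Fintype κ] (φ : κ → X →ₗ[F] F) :
    ∃ σ : (X →ₗ[F] F) →ₗ[F] (κ → F), ∀ ψ : X →ₗ[F] F,
      (∀ x, (∀ k, φ k x = 0) → ψ x = 0) → ∀ x, ψ x = ∑ k, σ ψ k * φ k x := by
  obtain ⟨L, hL⟩ : ∃ L : (κ → F) →ₗ[F] (X →ₗ[F] F), L = Fintype.linearCombination F φ :=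
    ⟨_, rfl⟩
  have : Module.Free F (LinearMap.range L) :=
    @Module.Free.of_divisionRing F (LinearMap.range L) _ _ _
  obtain ⟨g, hg⟩ : ∃ g : LinearMap.range L →ₗ[F] (κ → F), L.rangeRestrict ∘ₗ g = LinearMap.id :=
    LinearMap.exists_rightInverse_of_surjective L.rangeRestrict (LinearMap.range_rangeRestrict L)
  obtain ⟨σ, hσ⟩ := LinearMap.exists_extend g
  refine ⟨σ, fun ψ hψ x => ?_⟩
  have hmem : ψ ∈ LinearMap.range L := by
    rw [hL, Fintype.range_linearCombination]
    apply mem_span_of_iInf_ker_le_ker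
    intro x hx
    rw [LinearMap.mem_ker]
    apply hψ
    intro k
    have := (Submodule.mem_iInf _).1 hx k
    exact this
  have h1 : σ ψ = g ⟨ψ, hmem⟩ := by
    have := LinearMap.congr_fun hσ ⟨ψ, hmem⟩
    exact this
  have h2 : L (σ ψ) = ψ := by
    rw [h1]
    have := LinearMap.congr_fun hg ⟨ψ, hmem⟩
    exact congrArg Subtype.val this
  have h3 := LinearMap.congr_fun h2 x
  rw [hL, Fintype.linearCombination_apply] at h3
  rw [← h3]
  simp

/-- The rank of a linear map into a product of subspaces-valued maps: with components of rank at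
most `r s`. -/
theorem finrank_range_pi_le {S : Type} [Fintype S] {W' : S → Type} [∀ s, AddCommGroup (W' s)]
    [∀ s, Module F (W' s)] [∀ s, FiniteDimensional F (W' s)] (g : (s : S) → X →ₗ[F] W' s)
    (r : S → ℕ) (h : ∀ s, Module.finrank F (LinearMap.range (g s)) ≤ r s) :
    Module.finrank F (LinearMap.range (LinearMap.pi g)) ≤ ∑ s, r s := by
  have h1 : LinearMap.ker (LinearMap.pi g) = ⨅ s ∈ (Finset.univ : Finset S),
      LinearMap.ker (g s) := by
    rw [LinearMap.ker_pi]
    simp
  have h2 : codim (⨅ s ∈ (Finset.univ : Finset S), LinearMap.ker (g s)) ≤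
      ∑ s, r s := by
    apply codim_iInf_le
    intro s _
    have := LinearMap.finrank_range_add_finrank_ker (g s)
    have h3 := h s
    rw [codim]
    omega
  have h4 := LinearMap.finrank_range_add_finrank_ker (LinearMap.pi g)
  rw [← h1, codim] at h2
  omega

end duality

end PRAR
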