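import Pool.Agent.PRAR.E.Def
import Pool.Agent.PRAR.E.D1

/-! # Section 6 (v): relations on U -/

set_option autoImplicit false
set_option linter.unusedSectionVars false

open scoped Classical

noncomputable section

namespace PRAR

variable {ι : Type} [Fintype ι] {F : Type} [Field F] [Fintype F]
variable {Y : Type} [AddCommGroup Y] [Module F Y] [Fintype Y]

/-- Relations which only hold on `U`, between the functionals of types different from `{j}`. -/
def relU (P : Fam ι F Y) (j : ι) (y b : ι → Y) : Submodule F (RIdx P j → F) where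
  carrier := {c | (∀ x : RIdx P j, P.ty x.1.1 = {j} → c x = 0) ∧
    ∀ u ∈ UU P j, ∑ x, c x * rfun P j y b x u = 0}
  add_mem' := by
    intro a a' ha ha'
    refine ⟨fun x hx => by simp [ha.1 x hx, ha'.1 x hx], fun u hu => ?_⟩
    simp only [Pi.add_apply, add_mul, Finset.sum_add_distrib, ha.2 u hu, ha'.2 u hu, add_zero]
  zero_mem' := ⟨fun _ _ => rfl, fun u _ => by simp⟩
  smul_mem' := by
    intro c a ha
    refine ⟨fun x hx => by simp [ha.1 x hx], fun u hu => ?_⟩
    simp only [Pi.smul_apply, smul_eq_mul, mul_assoc, ← Finset.mul_sum, ha.2 u hu, mul_zero]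

/-- If the functionals of types `{j}` vanish at `u`, then `u ∈ UU P j`. -/
theorem ed2_mem_UU (P : Fam ι F Y) (j : ι) (y b : ι → Y) (u : Y)
    (hu : ∀ x : {x : RIdx P j // P.ty x.1.1 = {j}}, rfun P j y b x.1 u = 0) : u ∈ UU P j := by
  intro k hk
  have hj : j ∈ P.ty k := by rw [hk]; simp
  have h1 : rfun P j y b (⟨(k, ∅), hj, Finset.empty_subset _⟩ : RIdx P j) u = 0 :=
    hu ⟨⟨(k, ∅), hj, Finset.empty_subset _⟩, hk⟩
  rw [← h1]
  show P.p k (Function.update 0 j u) =
    P.p k (Function.update ((∅ : Finset ι).piecewise b y) j u)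
  apply (P.lin k).congr
  intro i hi
  rw [hk, Finset.mem_singleton] at hi
  subst hi
  simp

theorem relU_le_dep (P : Fam ι F Y) (j : ι) (y b : ι → Y) :
    Module.finrank F (relU P j y b) ≤ dep P j y b := by
  obtain ⟨ρ, hρ⟩ : ∃ ρ : (RIdx P j → F) →ₗ[F] (RIdx P j → F),
      ∀ c x, ρ c x = if P.ty x.1.1 = {j} then 0 else c x :=
    ⟨{ toFun := fun c x => if P.ty x.1.1 = {j} then 0 else c x
       map_add' := by
        intro c d
        ext x
        by_cases h : P.ty x.1.1 = {j} <;> simp [h]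
       map_smul' := by
        intro c d
        ext x
        by_cases h : P.ty x.1.1 = {j} <;> simp [h] }, fun _ _ => rfl⟩
  have hle : relU P j y b ≤ (relSpace P j y b).map ρ := by
    intro c hc
    obtain ⟨σ, hσ⟩ := exists_coeff (F := F)
      (fun x : {x : RIdx P j // P.ty x.1.1 = {j}} => rfun P j y b x.1)
    obtain ⟨ψ, hψ⟩ : ∃ ψ : Y →ₗ[F] F, ∀ u, ψ u = ∑ x, c x * rfun P j y b x u :=
      ⟨∑ x, c x • rfun P j y b x, fun u => by simp⟩
    have h1 := hσ ψ (fun u hu => by
      rw [hψ]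
      exact hc.2 u (ed2_mem_UU P j y b u hu))
    obtain ⟨d, hd⟩ : ∃ d : RIdx P j → F, ∀ x, d x =
        if h : P.ty x.1.1 = {j} then σ ψ ⟨x, h⟩ else 0 := ⟨_, fun _ => rfl⟩
    have h2 : ∀ u, ∑ x, d x * rfun P j y b x u = ψ u := by
      intro u
      rw [h1 u, ← Fintype.sum_subtype_add_sum_subtype
        (fun x : RIdx P j => P.ty x.1.1 = {j}) (fun x => d x * rfun P j y b x u)]
      have h3 : ∑ x : {x : RIdx P j // ¬ P.ty x.1.1 = {j}}, d x.1 * rfun P j y b x.1 u = 0 :=
        Finset.sum_eq_zero fun x _ => by rw [hd, dif_neg x.2, zero_mul]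
      rw [h3, add_zero]
      exact Finset.sum_congr rfl fun x _ => by rw [hd, dif_pos x.2]
    refine ⟨c - d, ?_, ?_⟩
    · intro u
      simp only [Pi.sub_apply, sub_mul, Finset.sum_sub_distrib]
      rw [h2, hψ, sub_self]
    · ext x
      rw [hρ]
      by_cases h : P.ty x.1.1 = {j}
      · rw [if_pos h, hc.1 x h]
      · rw [if_neg h, Pi.sub_apply, hd, dif_neg h, sub_zero]
  exact (Submodule.finrank_mono hle).trans (Submodule.finrank_map_le ρ _)

end PRAR
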