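import Pool.Agent.PRAR.E.D3c

/-! # Section 6 (v): the grid lemma -/

set_option autoImplicit false
set_option linter.unusedSectionVars false

open scoped Classical

noncomputable section

namespace PRAR

theorem ed3_pi_rank {F : Type} [Field F] {X W S : Type} [AddCommMonoid X] [Module F X]
    [AddCommGroup W] [Module F W] [FiniteDimensional F W] [Fintype S]
    (g : S → X →ₗ[F] W) (κ : ℕ) (h : ∀ s, Module.finrank F (LinearMap.range (g s)) ≤ κ) :
    Module.finrank F (LinearMap.range (LinearMap.pi g)) ≤ Fintype.card S * κ := by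
  have e : LinearMap.pi g = (LinearMap.pi (fun s =>
      (Submodule.subtype (LinearMap.range (g s))).comp (LinearMap.proj s))).comp
      (LinearMap.pi fun s => (g s).rangeRestrict) := by
    ext x s; rfl
  rw [e]
  refine (Submodule.finrank_mono (LinearMap.range_comp_le_range _ _)).trans ?_
  refine (LinearMap.finrank_range_le _).trans ?_
  rw [Module.finrank_pi_fintype]
  refine (Finset.sum_le_sum fun s _ => h s).trans ?_
  rw [Finset.sum_const, Finset.card_univ, smul_eq_mul]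

variable {ι : Type} [Fintype ι] {F : Type} [Field F] [Fintype F]
variable {Y : Type} [AddCommGroup Y] [Module F Y] [Fintype Y]

/-- All the conditions. -/
def ed3_g (P : Fam ι F Y) (j : ι) (A0 : Finset ι) (y b : ι → Y) (Mn : Finset P.κ) :
    (s : Option ι × Finset ι) →
      (↥((ed3_SS P j A0 y b).dualAnnihilator) →ₗ[F] (RIdx P j → F))
  | (none, B) => ed3_gn P j A0 y b Mn B
  | (some i, B) => ed3_ge P j A0 y b i B

theorem ed3_g_rank (P : Fam ι F Y) (j : ι) (A0 : Finset ι) (hj : j ∉ A0) (y b : ι → Y)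
    (Mn : Finset P.κ) (κ : ℕ) (hdep : dep P j y b ≤ κ)
    (hdef : (Finset.univ.filter (fun k => j ∈ P.ty k ∧ P.ty k ≠ {j} ∧ k ∉ Mn)).card ≤ κ) :
    (s : Option ι × Finset ι) →
      Module.finrank F (LinearMap.range (ed3_g P j A0 y b Mn s)) ≤ κ
  | (none, B) => ed3_gn_rank P j A0 y b Mn κ hdef B
  | (some i, B) => ed3_ge_rank P j A0 hj y b κ hdep i B

/-- The map collecting the conditions. -/
def ed3_theta (P : Fam ι F Y) (j : ι) (A0 : Finset ι) (y b : ι → Y) (Mn : Finset P.κ) :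
    ↥((ed3_SS P j A0 y b).dualAnnihilator) →ₗ[F] (Option ι × Finset ι → (RIdx P j → F)) :=
  LinearMap.pi (ed3_g P j A0 y b Mn)

theorem ed3_theta_apply (P : Fam ι F Y) (j : ι) (A0 : Finset ι) (y b : ι → Y) (Mn : Finset P.κ)
    (ψ : ↥((ed3_SS P j A0 y b).dualAnnihilator)) (s : Option ι × Finset ι) :
    ed3_theta P j A0 y b Mn ψ s = ed3_g P j A0 y b Mn s ψ := rfl

theorem ed3_theta_rank (P : Fam ι F Y) (j : ι) (A0 : Finset ι) (hj : j ∉ A0) (y b : ι → Y)
    (Mn : Finset P.κ) (κ : ℕ) (hdep : dep P j y b ≤ κ)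
    (hdef : (Finset.univ.filter (fun k => j ∈ P.ty k ∧ P.ty k ≠ {j} ∧ k ∉ Mn)).card ≤ κ) :
    Module.finrank F (LinearMap.range (ed3_theta P j A0 y b Mn)) ≤
      (Fintype.card ι + 1) * 2 ^ Fintype.card ι * κ := by
  refine (ed3_pi_rank (ed3_g P j A0 y b Mn) κ
    (ed3_g_rank P j A0 hj y b Mn κ hdep hdef)).trans ?_
  rw [Fintype.card_prod, Fintype.card_option, Fintype.card_finset]

/-- The grid lemma. -/
theorem grid_lemma (P : Fam ι F Y) (j : ι) (A0 : Finset ι) (hj : j ∉ A0)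
    (hA : ∀ k, j ∈ P.ty k → (P.ty k).erase j ⊆ A0) (y b : ι → Y) (Mn : Finset P.κ)
    (hMn : ∀ k ∈ Mn, j ∈ P.ty k ∧ P.ty k ≠ {j}) (κ : ℕ) (hdep : dep P j y b ≤ κ)
    (hdef : (Finset.univ.filter (fun k => j ∈ P.ty k ∧ P.ty k ≠ {j} ∧ k ∉ Mn)).card ≤ κ)
    (Φ : Finset ι → Y →ₗ[F] Y) (hU : ∀ B x, Φ B x ∈ UU P j)
    (hN : ∀ k ∈ Mn, ∀ D : Finset ι, Disjoint D ((P.ty k).erase j) → ∀ x,
      ∑ J ∈ ((P.ty k).erase j).powerset,
        P.p k (Function.update (J.piecewise b y) j (Φ (D ∪ J) x)) = 0) :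
    ∃ S : Submodule F Y, codim S ≤ (Fintype.card ι + 1) * 2 ^ Fintype.card ι * κ ∧
      ∀ x ∈ S, ∃ (w1 : Finset ι → Y) (w2 : ι → Finset ι → Y),
        (∀ B, B ⊆ A0 → w1 B ∈ KK P j (B.piecewise b y)) ∧
        (∀ i ∈ A0, ∀ B, B ⊆ A0.erase i →
          w2 i B ∈ KK P j (Function.update (B.piecewise b y) i (y i + b i))) ∧
        ∀ B, B ⊆ A0 → Φ B x = w1 B + ∑ i ∈ A0 \ B, w2 i B + ∑ i ∈ B, w2 i (B.erase i) := by
  refine ⟨(ed3_SS P j A0 y b).comap (ed3_Phi P j Φ hU), ?_, ?_⟩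
  · refine (dual_codim (ed3_Phi P j Φ hU) (ed3_SS P j A0 y b) (ed3_theta P j A0 y b Mn) ?_).trans
      (ed3_theta_rank P j A0 hj y b Mn κ hdep hdef)
    intro ψ hψ x
    refine ed3_dual P j A0 hA y b Mn Φ hU hN ψ ?_ ?_ x
    · intro B k hk
      refine ed3_gn_zero P j A0 y b Mn B ψ ?_ k hk
      exact congrFun hψ (none, B)
    · intro i hi B hB k hk
      refine ed3_ge_zero P j A0 hj y b i hi B hB ψ ?_ k hk
      exact congrFun hψ (some i, B)
  · rintro x ⟨w1, w2, h1, h2, h3⟩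
    exact ⟨w1, w2, h1, h2, fun B hB => h3 B hB⟩

end PRAR
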