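import Pool.Agent.PRAR.E.D1
import Pool.Agent.PRAR.E.D2

/-! # Section 6 (v): the grid lemma -/

set_option autoImplicit false
set_option linter.unusedSectionVars false

open scoped Classical

noncomputable section

namespace PRAR

variable {ι : Type} [Fintype ι] {F : Type} [Field F] [Fintype F]
variable {Y : Type} [AddCommGroup Y] [Module F Y] [Fintype Y]

/-- The forms containing `j` of type different from `{j}`. -/
abbrev ed3_N (P : Fam ι F Y) (j : ι) : Type := {k : P.κ // j ∈ P.ty k ∧ P.ty k ≠ {j}}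

/-- `u ↦ p_k (g, u)` on `U`. -/
def ed3_f (P : Fam ι F Y) (j : ι) (g : ι → Y) (k : ed3_N P j) : ↥(UU P j) →ₗ[F] F where
  toFun u := P.p k.1 (Function.update g j (u : Y))
  map_add' u v := (P.lin k.1).add j k.2.1 g u v
  map_smul' c u := by simpa using (P.lin k.1).smul j k.2.1 g c u

theorem ed3_KK_le (P : Fam ι F Y) (j : ι) (g : ι → Y) : KK P j g ≤ UU P j := by
  intro u hu k hk
  have h := hu k (by rw [hk]; simp)
  rw [← h]
  refine (P.lin k).congr fun i hi => ?_
  rw [hk, Finset.mem_singleton] at hi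
  subst hi
  simp

theorem ed3_mem_KK (P : Fam ι F Y) (j : ι) (g : ι → Y) (u : ↥(UU P j))
    (h : ∀ k, ed3_f P j g k u = 0) : (u : Y) ∈ KK P j g := by
  intro k hk
  by_cases hkj : P.ty k = {j}
  · have h2 := u.2 k hkj
    rw [← h2]
    refine (P.lin k).congr fun i hi => ?_
    rw [hkj, Finset.mem_singleton] at hi
    subst hi
    simp
  · exact h ⟨k, hk, hkj⟩

theorem ed3_f_off (P : Fam ι F Y) {i j : ι} (hij : i ≠ j) (g : ι → Y) (z : Y) (k : ed3_N P j)
    (hk : i ∉ P.ty k.1) (u : ↥(UU P j)) :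
    ed3_f P j (Function.update g i z) k u = ed3_f P j g k u := by
  show P.p k.1 (Function.update (Function.update g i z) j (u : Y)) = _
  rw [Function.update_comm hij, (P.lin k.1).off i hk]
  rfl

theorem ed3_f_add (P : Fam ι F Y) {i j : ι} (hij : i ≠ j) (y b : ι → Y) (B : Finset ι)
    (hiB : i ∉ B) (k : ed3_N P j) (hk : i ∈ P.ty k.1) (u : ↥(UU P j)) :
    ed3_f P j (Function.update (B.piecewise b y) i (y i + b i)) k u =
      ed3_f P j (B.piecewise b y) k u + ed3_f P j ((insert i B).piecewise b y) k u := by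
  show P.p k.1 (Function.update (Function.update _ i _) j (u : Y)) =
    P.p k.1 (Function.update _ j (u : Y)) + P.p k.1 (Function.update _ j (u : Y))
  rw [Function.update_comm hij, (P.lin k.1).add i hk, Function.update_comm hij.symm,
    Function.update_comm hij.symm, ← Finset.piecewise_insert]
  congr 3
  have h1 : y i = (B.piecewise b y) i := by simp [hiB]
  rw [h1, Function.update_eq_self]

/-- Element of `RIdx`. -/
def ed3_mk (P : Fam ι F Y) (j : ι) (k : P.κ) (J : Finset ι) (h1 : j ∈ P.ty k)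
    (h2 : J ⊆ (P.ty k).erase j) : RIdx P j :=
  (⟨(k, J), h1, h2⟩ : {x : P.κ × Finset ι // j ∈ P.ty x.1 ∧ x.2 ⊆ (P.ty x.1).erase j})

/-- The coordinates at the vertex `C`. -/
def ed3_vec (P : Fam ι F Y) (j : ι) (C : Finset ι) : (ed3_N P j → F) →ₗ[F] (RIdx P j → F) where
  toFun a := fun x => if h : P.ty x.1.1 ≠ {j} ∧ x.1.2 = C ∩ (P.ty x.1.1).erase j then
    a ⟨x.1.1, x.2.1, h.1⟩ else 0
  map_add' a a' := by
    ext x
    simp only [Pi.add_apply]
    split_ifs <;> simp
  map_smul' c a := by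
    ext x
    simp only [Pi.smul_apply, RingHom.id_apply]
    split_ifs <;> simp

theorem ed3_vec_pos (P : Fam ι F Y) (j : ι) (C : Finset ι) (a : ed3_N P j → F) (k : ed3_N P j)
    (J : Finset ι) (hJ : J = C ∩ (P.ty k.1).erase j) (h2 : J ⊆ (P.ty k.1).erase j) :
    ed3_vec P j C a (ed3_mk P j k.1 J k.2.1 h2) = a k := by
  have : (P.ty (ed3_mk P j k.1 J k.2.1 h2).1.1 ≠ {j} ∧
      (ed3_mk P j k.1 J k.2.1 h2).1.2 = C ∩ (P.ty (ed3_mk P j k.1 J k.2.1 h2).1.1).erase j) :=
    ⟨k.2.2, hJ⟩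
  show (if h : _ then _ else _) = _
  rw [dif_pos this]
  rfl

theorem ed3_vec_neg (P : Fam ι F Y) (j : ι) (C : Finset ι) (a : ed3_N P j → F) (k : ed3_N P j)
    (J : Finset ι) (hJ : J ≠ C ∩ (P.ty k.1).erase j) (h2 : J ⊆ (P.ty k.1).erase j) :
    ed3_vec P j C a (ed3_mk P j k.1 J k.2.1 h2) = 0 := by
  show (if h : _ then _ else _) = _
  rw [dif_neg]
  rintro ⟨-, h⟩
  exact hJ h

theorem ed3_vec_single (P : Fam ι F Y) (j : ι) (C : Finset ι) (a : ed3_N P j → F) (x : RIdx P j)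
    (hx : P.ty x.1.1 = {j}) : ed3_vec P j C a x = 0 := by
  show (if h : _ then _ else _) = _
  rw [dif_neg]
  rintro ⟨h, -⟩
  exact h hx

theorem ed3_vec_sum (P : Fam ι F Y) (j : ι) (y b : ι → Y) (C : Finset ι) (a : ed3_N P j → F)
    (u : ↥(UU P j)) : ∑ x, ed3_vec P j C a x * rfun P j y b x (u : Y) =
      ∑ k, a k * ed3_f P j (C.piecewise b y) k u := by
  symm
  refine Fintype.sum_of_injective
    (fun k : ed3_N P j => ed3_mk P j k.1 (C ∩ (P.ty k.1).erase j) k.2.1 Finset.inter_subset_right)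
    ?_ _ _ ?_ ?_
  · intro k k' h
    have h1 : (k.1, C ∩ (P.ty k.1).erase j) = (k'.1, C ∩ (P.ty k'.1).erase j) :=
      congrArg Subtype.val h
    exact Subtype.ext (congrArg Prod.fst h1)
  · intro x hx
    have : ed3_vec P j C a x = 0 := by
      show (if h : _ then _ else _) = _
      rw [dif_neg]
      rintro ⟨h1, h2⟩
      refine hx ⟨⟨x.1.1, x.2.1, h1⟩, ?_⟩
      refine Subtype.ext ?_
      refine Prod.ext rfl ?_
      exact h2.symm
    rw [this, zero_mul]
  · intro k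
    rw [ed3_vec_pos P j C a k _ rfl]
    congr 1
    show P.p k.1 (Function.update _ j (u : Y)) = P.p k.1 (Function.update _ j (u : Y))
    refine (P.lin k.1).congr fun i hi => ?_
    by_cases hij : i = j
    · subst hij; simp
    · rw [Function.update_of_ne hij, Function.update_of_ne hij]
      show C.piecewise b y i = (C ∩ (P.ty k.1).erase j).piecewise b y i
      by_cases hC : i ∈ C
      · rw [Finset.piecewise_eq_of_mem _ _ _ hC, Finset.piecewise_eq_of_mem]
        exact Finset.mem_inter.2 ⟨hC, Finset.mem_erase.2 ⟨hij, hi⟩⟩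
      · rw [Finset.piecewise_eq_of_notMem _ _ _ hC, Finset.piecewise_eq_of_notMem]
        exact fun h => hC (Finset.mem_inter.1 h).1

/-- The span of the vectors supported at a vertex or at an edge of the cube. -/
def ed3_SS (P : Fam ι F Y) (j : ι) (A0 : Finset ι) (y b : ι → Y) :
    Submodule F (Finset ι → ↥(UU P j)) where
  carrier := {v | ∃ (w1 : Finset ι → Y) (w2 : ι → Finset ι → Y),
        (∀ B, B ⊆ A0 → w1 B ∈ KK P j (B.piecewise b y)) ∧
        (∀ i ∈ A0, ∀ B, B ⊆ A0.erase i →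
          w2 i B ∈ KK P j (Function.update (B.piecewise b y) i (y i + b i))) ∧
        ∀ B, B ⊆ A0 → (v B : Y) = w1 B + ∑ i ∈ A0 \ B, w2 i B + ∑ i ∈ B, w2 i (B.erase i)}
  add_mem' := by
    rintro v v' ⟨w1, w2, h1, h2, h3⟩ ⟨w1', w2', h1', h2', h3'⟩
    refine ⟨w1 + w1', w2 + w2', fun B hB => add_mem (h1 B hB) (h1' B hB),
      fun i hi B hB => add_mem (h2 i hi B hB) (h2' i hi B hB), fun B hB => ?_⟩
    rw [Pi.add_apply, Submodule.coe_add, h3 B hB, h3' B hB]
    simp only [Pi.add_apply, Finset.sum_add_distrib]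
    abel
  zero_mem' := ⟨0, 0, fun _ _ => zero_mem _, fun _ _ _ _ => zero_mem _, fun B hB => by simp⟩
  smul_mem' := by
    rintro c v ⟨w1, w2, h1, h2, h3⟩
    refine ⟨c • w1, c • w2, fun B hB => Submodule.smul_mem _ c (h1 B hB),
      fun i hi B hB => Submodule.smul_mem _ c (h2 i hi B hB), fun B hB => ?_⟩
    rw [Pi.smul_apply, Submodule.coe_smul, h3 B hB]
    simp only [Pi.smul_apply, Finset.smul_sum, smul_add]

theorem ed3_SS_out (P : Fam ι F Y) (j : ι) (A0 : Finset ι) (y b : ι → Y) {B : Finset ι}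
    (hB : ¬ B ⊆ A0) (u : ↥(UU P j)) : Pi.single B u ∈ ed3_SS P j A0 y b := by
  refine ⟨0, 0, fun _ _ => zero_mem _, fun _ _ _ _ => zero_mem _, fun B' hB' => ?_⟩
  have : B' ≠ B := by rintro rfl; exact hB hB'
  rw [Pi.single_eq_of_ne this]
  simp

theorem ed3_SS_vertex (P : Fam ι F Y) (j : ι) (A0 : Finset ι) (y b : ι → Y) (B : Finset ι)
    (u : ↥(UU P j)) (hu : (u : Y) ∈ KK P j (B.piecewise b y)) :
    Pi.single B u ∈ ed3_SS P j A0 y b := by
  refine ⟨Pi.single B (u : Y), 0, fun B' _ => ?_, fun _ _ _ _ => zero_mem _, fun B' hB' => ?_⟩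
  · by_cases h : B' = B
    · subst h; simpa using hu
    · rw [Pi.single_eq_of_ne h]; exact zero_mem _
  · by_cases h : B' = B
    · subst h; simp
    · rw [Pi.single_eq_of_ne h, Pi.single_eq_of_ne h]; simp

theorem ed3_SS_edge (P : Fam ι F Y) (j : ι) (A0 : Finset ι) (y b : ι → Y) {i : ι} (hi : i ∈ A0)
    {B : Finset ι} (hB : B ⊆ A0.erase i) (u : ↥(UU P j))
    (hu : (u : Y) ∈ KK P j (Function.update (B.piecewise b y) i (y i + b i))) :
    Pi.single B u + Pi.single (insert i B) u ∈ ed3_SS P j A0 y b := by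
  have hiB : i ∉ B := fun h => (Finset.mem_erase.1 (hB h)).1 rfl
  refine ⟨0, fun i' B' => if i' = i ∧ B' = B then (u : Y) else 0, fun _ _ => zero_mem _,
    fun i' _ B' _ => ?_, fun B' hB' => ?_⟩
  · show (if i' = i ∧ B' = B then (u : Y) else 0) ∈ _
    split_ifs with h
    · obtain ⟨rfl, rfl⟩ := h; exact hu
    · exact zero_mem _
  · have e1 : ∑ i' ∈ A0 \ B', (if i' = i ∧ B' = B then (u : Y) else 0) =
        if B' = B then (u : Y) else 0 := by
      by_cases h : B' = B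
      · subst h
        rw [if_pos rfl, Finset.sum_eq_single i]
        · simp
        · intro i' _ hne; simp [hne]
        · intro h; exact absurd (Finset.mem_sdiff.2 ⟨hi, hiB⟩) h
      · rw [if_neg h]
        exact Finset.sum_eq_zero fun i' _ => by simp [h]
    have e2 : ∑ i' ∈ B', (if i' = i ∧ B'.erase i' = B then (u : Y) else 0) =
        if B' = insert i B then (u : Y) else 0 := by
      by_cases h : B' = insert i B
      · subst h
        rw [if_pos rfl, Finset.sum_eq_single i]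
        · rw [if_pos ⟨rfl, Finset.erase_insert hiB⟩]
        · intro i' _ hne; simp [hne]
        · intro h; exact absurd (Finset.mem_insert_self i B) h
      · rw [if_neg h]
        refine Finset.sum_eq_zero fun i' hi' => ?_
        rw [if_neg]
        rintro ⟨rfl, h2⟩
        exact h (by rw [← h2, Finset.insert_erase hi'])
    simp only [Pi.zero_apply, zero_add]
    rw [e1, e2, Pi.add_apply, Submodule.coe_add]
    congr 1
    · by_cases h : B' = B
      · subst h; simp
      · rw [Pi.single_eq_of_ne h, if_neg h]; rfl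
    · by_cases h : B' = insert i B
      · subst h; simp
      · rw [Pi.single_eq_of_ne h, if_neg h]; rfl

/-- The coefficients of a functional at the vertex `g`. -/
def ed3_sig (P : Fam ι F Y) (j : ι) (g : ι → Y) :
    (↥(UU P j) →ₗ[F] F) →ₗ[F] (ed3_N P j → F) := (exists_coeff (ed3_f P j g)).choose

theorem ed3_sig_spec (P : Fam ι F Y) (j : ι) (g : ι → Y) (ψ : ↥(UU P j) →ₗ[F] F)
    (h : ∀ u : ↥(UU P j), (u : Y) ∈ KK P j g → ψ u = 0) (u : ↥(UU P j)) :
    ψ u = ∑ k, ed3_sig P j g ψ k * ed3_f P j g k u :=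
  (exists_coeff (ed3_f P j g)).choose_spec ψ
    (fun x hx => h x (ed3_mem_KK P j g x hx)) u

/-- Component of a functional. -/
def ed3_pc (P : Fam ι F Y) (j : ι) (A0 : Finset ι) (y b : ι → Y) (B : Finset ι) :
    ↥((ed3_SS P j A0 y b).dualAnnihilator) →ₗ[F] (↥(UU P j) →ₗ[F] F) :=
  ((LinearMap.single F (fun _ : Finset ι => ↥(UU P j)) B).dualMap).comp (Submodule.subtype _)

theorem ed3_pc_apply (P : Fam ι F Y) (j : ι) (A0 : Finset ι) (y b : ι → Y) (B : Finset ι)
    (ψ : ↥((ed3_SS P j A0 y b).dualAnnihilator)) (u : ↥(UU P j)) :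
    ed3_pc P j A0 y b B ψ u = ψ.1 (Pi.single B u) := rfl

theorem ed3_ann (P : Fam ι F Y) (j : ι) (A0 : Finset ι) (y b : ι → Y)
    (ψ : ↥((ed3_SS P j A0 y b).dualAnnihilator)) {v : Finset ι → ↥(UU P j)}
    (hv : v ∈ ed3_SS P j A0 y b) : ψ.1 v = 0 :=
  (Submodule.mem_dualAnnihilator _).1 ψ.2 v hv

/-- Mask. -/
def ed3_msk (P : Fam ι F Y) (j : ι) (s : ed3_N P j → Prop) :
    (ed3_N P j → F) →ₗ[F] (ed3_N P j → F) where
  toFun a := fun k => if s k then a k else 0
  map_add' a a' := by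
    ext x
    simp only [Pi.add_apply]
    split_ifs <;> simp
  map_smul' c a := by
    ext x
    simp only [Pi.smul_apply, RingHom.id_apply]
    split_ifs <;> simp

theorem ed3_msk_pos (P : Fam ι F Y) (j : ι) (s : ed3_N P j → Prop) (a : ed3_N P j → F)
    (k : ed3_N P j) (h : s k) : ed3_msk P j s a k = a k := if_pos h

theorem ed3_msk_neg (P : Fam ι F Y) (j : ι) (s : ed3_N P j → Prop) (a : ed3_N P j → F)
    (k : ed3_N P j) (h : ¬ s k) : ed3_msk P j s a k = 0 := if_neg h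

/-- Extension by zero. -/
def ed3_ext (P : Fam ι F Y) (j : ι) (Mn : Finset P.κ) :
    ({k : P.κ // j ∈ P.ty k ∧ P.ty k ≠ {j} ∧ k ∉ Mn} → F) →ₗ[F] (ed3_N P j → F) where
  toFun a := fun k => if h : k.1 ∉ Mn then a ⟨k.1, k.2.1, k.2.2, h⟩ else 0
  map_add' a a' := by
    ext x
    simp only [Pi.add_apply]
    split_ifs <;> simp
  map_smul' c a := by
    ext x
    simp only [Pi.smul_apply, RingHom.id_apply]
    split_ifs <;> simp

/-- Restriction. -/
def ed3_res (P : Fam ι F Y) (j : ι) (Mn : Finset P.κ) :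
    (ed3_N P j → F) →ₗ[F] ({k : P.κ // j ∈ P.ty k ∧ P.ty k ≠ {j} ∧ k ∉ Mn} → F) where
  toFun a := fun k => a ⟨k.1, k.2.1, k.2.2.1⟩
  map_add' _ _ := rfl
  map_smul' _ _ := rfl

/-- The coefficients at the vertex `B`. -/
def ed3_lam (P : Fam ι F Y) (j : ι) (A0 : Finset ι) (y b : ι → Y) (B : Finset ι) :
    ↥((ed3_SS P j A0 y b).dualAnnihilator) →ₗ[F] (ed3_N P j → F) :=
  (ed3_sig P j (B.piecewise b y)).comp (ed3_pc P j A0 y b B)

/-- The coefficients at the one-sum vertex `(i, B)`. -/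
def ed3_lam2 (P : Fam ι F Y) (j : ι) (A0 : Finset ι) (y b : ι → Y) (i : ι) (B : Finset ι) :
    ↥((ed3_SS P j A0 y b).dualAnnihilator) →ₗ[F] (ed3_N P j → F) :=
  (ed3_sig P j (Function.update (B.piecewise b y) i (y i + b i))).comp
    (ed3_pc P j A0 y b B + ed3_pc P j A0 y b (insert i B))

theorem ed3_lam_spec (P : Fam ι F Y) (j : ι) (A0 : Finset ι) (y b : ι → Y) (B : Finset ι)
    (ψ : ↥((ed3_SS P j A0 y b).dualAnnihilator)) (u : ↥(UU P j)) :
    ψ.1 (Pi.single B u) =
      ∑ k, ed3_lam P j A0 y b B ψ k * ed3_f P j (B.piecewise b y) k u :=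
  ed3_sig_spec P j _ (ed3_pc P j A0 y b B ψ)
    (fun v hv => ed3_ann P j A0 y b ψ (ed3_SS_vertex P j A0 y b B v hv)) u

theorem ed3_lam2_spec (P : Fam ι F Y) (j : ι) (A0 : Finset ι) (y b : ι → Y) {i : ι} (hi : i ∈ A0)
    {B : Finset ι} (hB : B ⊆ A0.erase i) (ψ : ↥((ed3_SS P j A0 y b).dualAnnihilator))
    (u : ↥(UU P j)) : ψ.1 (Pi.single B u) + ψ.1 (Pi.single (insert i B) u) =
      ∑ k, ed3_lam2 P j A0 y b i B ψ k *
        ed3_f P j (Function.update (B.piecewise b y) i (y i + b i)) k u := by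
  refine ed3_sig_spec P j _ ((ed3_pc P j A0 y b B + ed3_pc P j A0 y b (insert i B)) ψ)
    (fun v hv => ?_) u
  show ψ.1 (Pi.single B v) + ψ.1 (Pi.single (insert i B) v) = 0
  rw [← map_add]
  exact ed3_ann P j A0 y b ψ (ed3_SS_edge P j A0 y b hi hB v hv)

end PRAR
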