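import Pool.Agent.PRAR.E.D3a

/-! # Section 6 (v): the grid lemma -/

set_option autoImplicit false
set_option linter.unusedSectionVars false

open scoped Classical

noncomputable section

namespace PRAR

variable {ι : Type} [Fintype ι] {F : Type} [Field F] [Fintype F]
variable {Y : Type} [AddCommGroup Y] [Module F Y] [Fintype Y]

/-- The relation attached to the edge `(i, B)`. -/
def ed3_R (P : Fam ι F Y) (j : ι) (A0 : Finset ι) (y b : ι → Y) (i : ι) (B : Finset ι) :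
    ↥((ed3_SS P j A0 y b).dualAnnihilator) →ₗ[F] (RIdx P j → F) :=
  (ed3_vec P j B).comp (ed3_lam2 P j A0 y b i B - ed3_lam P j A0 y b B -
      (ed3_msk P j (fun k => i ∉ P.ty k.1)).comp (ed3_lam P j A0 y b (insert i B))) +
    (ed3_vec P j (insert i B)).comp ((ed3_msk P j (fun k => i ∈ P.ty k.1)).comp
      (ed3_lam2 P j A0 y b i B - ed3_lam P j A0 y b (insert i B)))

theorem ed3_R_mem (P : Fam ι F Y) (j : ι) (A0 : Finset ι) (hj : j ∉ A0) (y b : ι → Y) {i : ι}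
    (hi : i ∈ A0) {B : Finset ι} (hB : B ⊆ A0.erase i)
    (ψ : ↥((ed3_SS P j A0 y b).dualAnnihilator)) :
    ed3_R P j A0 y b i B ψ ∈ relU P j y b := by
  have hij : i ≠ j := by rintro rfl; exact hj hi
  have hiB : i ∉ B := fun h => (Finset.mem_erase.1 (hB h)).1 rfl
  refine ⟨fun x hx => ?_, fun u hu => ?_⟩
  · show ed3_vec P j B _ x + ed3_vec P j (insert i B) _ x = 0
    rw [ed3_vec_single _ _ _ _ _ hx, ed3_vec_single _ _ _ _ _ hx, add_zero]
  · have h0 : ∀ x, ed3_R P j A0 y b i B ψ x * rfun P j y b x u =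
        ed3_vec P j B (ed3_lam2 P j A0 y b i B ψ - ed3_lam P j A0 y b B ψ -
          ed3_msk P j (fun k => i ∉ P.ty k.1) (ed3_lam P j A0 y b (insert i B) ψ)) x *
            rfun P j y b x ((⟨u, hu⟩ : ↥(UU P j)) : Y) +
        ed3_vec P j (insert i B) (ed3_msk P j (fun k => i ∈ P.ty k.1)
          (ed3_lam2 P j A0 y b i B ψ - ed3_lam P j A0 y b (insert i B) ψ)) x *
            rfun P j y b x ((⟨u, hu⟩ : ↥(UU P j)) : Y) := fun x => add_mul _ _ _
    rw [Finset.sum_congr rfl fun x _ => h0 x, Finset.sum_add_distrib, ed3_vec_sum, ed3_vec_sum]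
    have h1 := ed3_lam_spec P j A0 y b B ψ ⟨u, hu⟩
    have h2 := ed3_lam_spec P j A0 y b (insert i B) ψ ⟨u, hu⟩
    have h3 := ed3_lam2_spec P j A0 y b hi hB ψ ⟨u, hu⟩
    have h4 : ∑ k, ed3_lam2 P j A0 y b i B ψ k *
        ed3_f P j (Function.update (B.piecewise b y) i (y i + b i)) k ⟨u, hu⟩ -
        ∑ k, ed3_lam P j A0 y b B ψ k * ed3_f P j (B.piecewise b y) k ⟨u, hu⟩ -
        ∑ k, ed3_lam P j A0 y b (insert i B) ψ k *
          ed3_f P j ((insert i B).piecewise b y) k ⟨u, hu⟩ = 0 := by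
      rw [← h1, ← h2, ← h3]; ring
    rw [← h4, ← Finset.sum_add_distrib, ← Finset.sum_sub_distrib, ← Finset.sum_sub_distrib]
    refine Finset.sum_congr rfl fun k _ => ?_
    by_cases hk : i ∈ P.ty k.1
    · rw [ed3_f_add P hij y b B hiB k hk]
      have e1 : ed3_msk P j (fun k => i ∉ P.ty k.1) (ed3_lam P j A0 y b (insert i B) ψ) k = 0 :=
        ed3_msk_neg P j _ _ k (not_not.2 hk)
      have e2 : ed3_msk P j (fun k => i ∈ P.ty k.1)
          (ed3_lam2 P j A0 y b i B ψ - ed3_lam P j A0 y b (insert i B) ψ) k =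
          ed3_lam2 P j A0 y b i B ψ k - ed3_lam P j A0 y b (insert i B) ψ k :=
        ed3_msk_pos P j _ _ k hk
      rw [e2, Pi.sub_apply, Pi.sub_apply, e1]
      ring
    · rw [ed3_f_off P hij _ _ k hk]
      have e0 : ed3_f P j ((insert i B).piecewise b y) k ⟨u, hu⟩ =
          ed3_f P j (B.piecewise b y) k ⟨u, hu⟩ := by
        rw [Finset.piecewise_insert, ed3_f_off P hij _ _ k hk]
      have e1 : ed3_msk P j (fun k => i ∉ P.ty k.1) (ed3_lam P j A0 y b (insert i B) ψ) k =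
          ed3_lam P j A0 y b (insert i B) ψ k := ed3_msk_pos P j _ _ k hk
      have e2 : ed3_msk P j (fun k => i ∈ P.ty k.1)
          (ed3_lam2 P j A0 y b i B ψ - ed3_lam P j A0 y b (insert i B) ψ) k = 0 :=
        ed3_msk_neg P j _ _ k hk
      rw [e2, Pi.sub_apply, Pi.sub_apply, e1, e0]
      ring

theorem ed3_R_zero (P : Fam ι F Y) (j : ι) (A0 : Finset ι) (hj : j ∉ A0) (y b : ι → Y) {i : ι}
    (hi : i ∈ A0) {B : Finset ι} (hB : B ⊆ A0.erase i)
    (ψ : ↥((ed3_SS P j A0 y b).dualAnnihilator)) (h : ed3_R P j A0 y b i B ψ = 0)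
    (k : ed3_N P j) (hk : i ∈ P.ty k.1) :
    ed3_lam P j A0 y b (insert i B) ψ k = ed3_lam P j A0 y b B ψ k := by
  have hij : i ≠ j := by rintro rfl; exact hj hi
  have hiB : i ∉ B := fun h => (Finset.mem_erase.1 (hB h)).1 rfl
  have hiI : i ∈ (P.ty k.1).erase j := Finset.mem_erase.2 ⟨hij, hk⟩
  have hne : B ∩ (P.ty k.1).erase j ≠ insert i B ∩ (P.ty k.1).erase j := by
    intro h
    have : i ∈ B ∩ (P.ty k.1).erase j := by
      rw [h]; exact Finset.mem_inter.2 ⟨Finset.mem_insert_self _ _, hiI⟩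
    exact hiB (Finset.mem_inter.1 this).1
  have h1 := congrFun h (ed3_mk P j k.1 (B ∩ (P.ty k.1).erase j) k.2.1 Finset.inter_subset_right)
  have h2 := congrFun h (ed3_mk P j k.1 (insert i B ∩ (P.ty k.1).erase j) k.2.1
    Finset.inter_subset_right)
  have h1' : ed3_vec P j B (ed3_lam2 P j A0 y b i B ψ - ed3_lam P j A0 y b B ψ -
      ed3_msk P j (fun k => i ∉ P.ty k.1) (ed3_lam P j A0 y b (insert i B) ψ))
      (ed3_mk P j k.1 (B ∩ (P.ty k.1).erase j) k.2.1 Finset.inter_subset_right) +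
    ed3_vec P j (insert i B) (ed3_msk P j (fun k => i ∈ P.ty k.1)
      (ed3_lam2 P j A0 y b i B ψ - ed3_lam P j A0 y b (insert i B) ψ))
      (ed3_mk P j k.1 (B ∩ (P.ty k.1).erase j) k.2.1 Finset.inter_subset_right) = 0 := h1
  have h2' : ed3_vec P j B (ed3_lam2 P j A0 y b i B ψ - ed3_lam P j A0 y b B ψ -
      ed3_msk P j (fun k => i ∉ P.ty k.1) (ed3_lam P j A0 y b (insert i B) ψ))
      (ed3_mk P j k.1 (insert i B ∩ (P.ty k.1).erase j) k.2.1 Finset.inter_subset_right) +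
    ed3_vec P j (insert i B) (ed3_msk P j (fun k => i ∈ P.ty k.1)
      (ed3_lam2 P j A0 y b i B ψ - ed3_lam P j A0 y b (insert i B) ψ))
      (ed3_mk P j k.1 (insert i B ∩ (P.ty k.1).erase j) k.2.1 Finset.inter_subset_right) = 0 := h2
  rw [ed3_vec_pos P j B _ k _ rfl, ed3_vec_neg P j _ _ k _ hne, add_zero] at h1'
  rw [ed3_vec_neg P j B _ k _ hne.symm, ed3_vec_pos P j _ _ k _ rfl, zero_add] at h2'
  have e1 : ed3_msk P j (fun k => i ∉ P.ty k.1) (ed3_lam P j A0 y b (insert i B) ψ) k = 0 :=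
    ed3_msk_neg P j _ _ k (not_not.2 hk)
  have e2 : ed3_msk P j (fun k => i ∈ P.ty k.1)
      (ed3_lam2 P j A0 y b i B ψ - ed3_lam P j A0 y b (insert i B) ψ) k =
      ed3_lam2 P j A0 y b i B ψ k - ed3_lam P j A0 y b (insert i B) ψ k :=
    ed3_msk_pos P j _ _ k hk
  rw [e2] at h2'
  rw [Pi.sub_apply, Pi.sub_apply, e1, sub_zero] at h1'
  rw [sub_eq_zero] at h1' h2'
  rw [← h1', ← h2']

end PRAR
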