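import Pool.Agent.PRAR.E.D3b

/-! # Section 6 (v): the grid lemma -/

set_option autoImplicit false
set_option linter.unusedSectionVars false

open scoped Classical

noncomputable section

namespace PRAR

variable {ι : Type} [Fintype ι] {F : Type} [Field F] [Fintype F]
variable {Y : Type} [AddCommGroup Y] [Module F Y] [Fintype Y]

/-- The first kind of conditions. -/
def ed3_gn (P : Fam ι F Y) (j : ι) (A0 : Finset ι) (y b : ι → Y) (Mn : Finset P.κ)
    (B : Finset ι) : ↥((ed3_SS P j A0 y b).dualAnnihilator) →ₗ[F] (RIdx P j → F) :=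
  ((ed3_vec P j ∅).comp (ed3_ext P j Mn)).comp ((ed3_res P j Mn).comp (ed3_lam P j A0 y b B))

/-- The second kind of conditions. -/
def ed3_ge (P : Fam ι F Y) (j : ι) (A0 : Finset ι) (y b : ι → Y) (i : ι) (B : Finset ι) :
    ↥((ed3_SS P j A0 y b).dualAnnihilator) →ₗ[F] (RIdx P j → F) :=
  if i ∈ A0 ∧ B ⊆ A0.erase i then ed3_R P j A0 y b i B else 0

theorem ed3_ge_pos (P : Fam ι F Y) (j : ι) (A0 : Finset ι) (y b : ι → Y) (i : ι) (B : Finset ι)
    (h : i ∈ A0 ∧ B ⊆ A0.erase i) : ed3_ge P j A0 y b i B = ed3_R P j A0 y b i B := if_pos h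

theorem ed3_ge_neg (P : Fam ι F Y) (j : ι) (A0 : Finset ι) (y b : ι → Y) (i : ι) (B : Finset ι)
    (h : ¬ (i ∈ A0 ∧ B ⊆ A0.erase i)) : ed3_ge P j A0 y b i B = 0 := if_neg h

theorem ed3_ext_res (P : Fam ι F Y) (j : ι) (Mn : Finset P.κ) (a : ed3_N P j → F)
    (k : ed3_N P j) (hk : k.1 ∉ Mn) : ed3_ext P j Mn (ed3_res P j Mn a) k = a k := dif_pos hk

theorem ed3_gn_rank (P : Fam ι F Y) (j : ι) (A0 : Finset ι) (y b : ι → Y) (Mn : Finset P.κ)
    (κ : ℕ) (hdef : (Finset.univ.filter (fun k => j ∈ P.ty k ∧ P.ty k ≠ {j} ∧ k ∉ Mn)).card ≤ κ)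
    (B : Finset ι) : Module.finrank F (LinearMap.range (ed3_gn P j A0 y b Mn B)) ≤ κ := by
  refine (Submodule.finrank_mono (LinearMap.range_comp_le_range _ _)).trans ?_
  refine (LinearMap.finrank_range_le _).trans ?_
  rw [Module.finrank_fintype_fun_eq_card, Fintype.card_subtype]
  exact hdef

theorem ed3_ge_rank (P : Fam ι F Y) (j : ι) (A0 : Finset ι) (hj : j ∉ A0) (y b : ι → Y)
    (κ : ℕ) (hdep : dep P j y b ≤ κ) (i : ι) (B : Finset ι) :
    Module.finrank F (LinearMap.range (ed3_ge P j A0 y b i B)) ≤ κ := by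
  by_cases h : i ∈ A0 ∧ B ⊆ A0.erase i
  · rw [ed3_ge_pos P j A0 y b i B h]
    have hle : LinearMap.range (ed3_R P j A0 y b i B) ≤ relU P j y b := by
      rintro _ ⟨ψ, rfl⟩
      exact ed3_R_mem P j A0 hj y b h.1 h.2 ψ
    exact (Submodule.finrank_mono hle).trans ((relU_le_dep P j y b).trans hdep)
  · rw [ed3_ge_neg P j A0 y b i B h, LinearMap.range_zero, finrank_bot]
    exact Nat.zero_le _

theorem ed3_gn_zero (P : Fam ι F Y) (j : ι) (A0 : Finset ι) (y b : ι → Y) (Mn : Finset P.κ)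
    (B : Finset ι) (ψ : ↥((ed3_SS P j A0 y b).dualAnnihilator))
    (h : ed3_gn P j A0 y b Mn B ψ = 0) (k : ed3_N P j) (hk : k.1 ∉ Mn) :
    ed3_lam P j A0 y b B ψ k = 0 := by
  have h1 := congrFun h (ed3_mk P j k.1 ∅ k.2.1 (Finset.empty_subset _))
  have h2 : ed3_vec P j ∅ (ed3_ext P j Mn (ed3_res P j Mn (ed3_lam P j A0 y b B ψ)))
      (ed3_mk P j k.1 ∅ k.2.1 (Finset.empty_subset _)) = 0 := h1
  rw [ed3_vec_pos P j ∅ _ k ∅ (Finset.empty_inter _).symm] at h2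
  rw [← ed3_ext_res P j Mn (ed3_lam P j A0 y b B ψ) k hk]
  exact h2

theorem ed3_ge_zero (P : Fam ι F Y) (j : ι) (A0 : Finset ι) (hj : j ∉ A0) (y b : ι → Y)
    (i : ι) (hi : i ∈ A0) (B : Finset ι) (hB : B ⊆ A0.erase i)
    (ψ : ↥((ed3_SS P j A0 y b).dualAnnihilator)) (h : ed3_ge P j A0 y b i B ψ = 0)
    (k : ed3_N P j) (hk : i ∈ P.ty k.1) :
    ed3_lam P j A0 y b (insert i B) ψ k = ed3_lam P j A0 y b B ψ k := by
  rw [ed3_ge_pos P j A0 y b i B ⟨hi, hB⟩] at h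
  exact ed3_R_zero P j A0 hj y b hi hB ψ h k hk

theorem ed3_lam_union (P : Fam ι F Y) (j : ι) (A0 : Finset ι)
    (hA : ∀ k, j ∈ P.ty k → (P.ty k).erase j ⊆ A0) (y b : ι → Y)
    (ψ : ↥((ed3_SS P j A0 y b).dualAnnihilator))
    (hstep : ∀ i ∈ A0, ∀ B ⊆ A0.erase i, ∀ k : ed3_N P j, i ∈ P.ty k.1 →
      ed3_lam P j A0 y b (insert i B) ψ k = ed3_lam P j A0 y b B ψ k)
    (k : ed3_N P j) (D : Finset ι) (hD : D ⊆ A0) (hDd : Disjoint D ((P.ty k.1).erase j))
    (J : Finset ι) : J ⊆ (P.ty k.1).erase j →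
      ed3_lam P j A0 y b (D ∪ J) ψ k = ed3_lam P j A0 y b D ψ k := by
  induction J using Finset.induction_on with
  | empty => intro _; rw [Finset.union_empty]
  | insert a J ha ih =>
    intro hJ
    have haI : a ∈ (P.ty k.1).erase j := hJ (Finset.mem_insert_self a J)
    have hJ' : J ⊆ (P.ty k.1).erase j := fun t ht => hJ (Finset.mem_insert_of_mem ht)
    have hsub : D ∪ J ⊆ A0.erase a := by
      intro t ht
      refine Finset.mem_erase.2 ⟨?_, ?_⟩
      · rintro rfl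
        rcases Finset.mem_union.1 ht with h | h
        · exact Finset.disjoint_left.1 hDd h haI
        · exact ha h
      · rcases Finset.mem_union.1 ht with h | h
        · exact hD h
        · exact hA k.1 k.2.1 (hJ' h)
    rw [Finset.union_insert, hstep a (hA k.1 k.2.1 haI) (D ∪ J) hsub k
      (Finset.mem_erase.1 haI).2, ih hJ']

/-- The map `x ↦ (Φ_B x)_B`. -/
def ed3_Phi (P : Fam ι F Y) (j : ι) (Φ : Finset ι → Y →ₗ[F] Y) (hU : ∀ B x, Φ B x ∈ UU P j) :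
    Y →ₗ[F] (Finset ι → ↥(UU P j)) :=
  LinearMap.pi fun B => (Φ B).codRestrict (UU P j) (hU B)

theorem ed3_Phi_coe (P : Fam ι F Y) (j : ι) (Φ : Finset ι → Y →ₗ[F] Y)
    (hU : ∀ B x, Φ B x ∈ UU P j) (x : Y) (B : Finset ι) :
    ((ed3_Phi P j Φ hU x B : ↥(UU P j)) : Y) = Φ B x := rfl

theorem ed3_fiber (P : Fam ι F Y) (j : ι) (A0 : Finset ι)
    (hA : ∀ k, j ∈ P.ty k → (P.ty k).erase j ⊆ A0) (y b : ι → Y)
    (Φ : Finset ι → Y →ₗ[F] Y) (hU : ∀ B x, Φ B x ∈ UU P j)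
    (ψ : ↥((ed3_SS P j A0 y b).dualAnnihilator)) (x : Y) (k : ed3_N P j)
    (D : Finset ι) (hD1 : D ⊆ A0) (hD2 : Disjoint D ((P.ty k.1).erase j))
    (hlam : ∀ J : Finset ι, J ⊆ (P.ty k.1).erase j →
      ed3_lam P j A0 y b (D ∪ J) ψ k = ed3_lam P j A0 y b D ψ k) :
    ∑ B ∈ A0.powerset with B \ (P.ty k.1).erase j = D,
      ed3_lam P j A0 y b B ψ k * ed3_f P j (B.piecewise b y) k (ed3_Phi P j Φ hU x B) =
    ∑ J ∈ ((P.ty k.1).erase j).powerset, ed3_lam P j A0 y b D ψ k *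
      P.p k.1 (Function.update (J.piecewise b y) j (Φ (D ∪ J) x)) := by
  symm
  refine Finset.sum_nbij' (fun J => D ∪ J) (fun B => B ∩ (P.ty k.1).erase j) ?_ ?_ ?_ ?_ ?_
  · intro J hJ
    have hJ' := Finset.mem_powerset.1 hJ
    refine Finset.mem_filter.2 ⟨Finset.mem_powerset.2 (Finset.union_subset hD1
      (hJ'.trans (hA k.1 k.2.1))), ?_⟩
    rw [Finset.union_sdiff_distrib, Finset.sdiff_eq_self_of_disjoint hD2,
      Finset.sdiff_eq_empty_iff_subset.2 hJ', Finset.union_empty]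
  · intro B _
    exact Finset.mem_powerset.2 Finset.inter_subset_right
  · intro J hJ
    have hJ' := Finset.mem_powerset.1 hJ
    show (D ∪ J) ∩ (P.ty k.1).erase j = J
    rw [Finset.union_inter_distrib_right, Finset.disjoint_iff_inter_eq_empty.1 hD2,
      Finset.empty_union, Finset.inter_eq_left.2 hJ']
  · intro B hB
    have hB' := (Finset.mem_filter.1 hB).2
    show D ∪ (B ∩ (P.ty k.1).erase j) = B
    rw [← hB', Finset.sdiff_union_inter]
  · intro J hJ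
    have hJ' := Finset.mem_powerset.1 hJ
    rw [hlam J hJ']
    congr 1
    show P.p k.1 (Function.update _ j _) =
      P.p k.1 (Function.update _ j ((ed3_Phi P j Φ hU x (D ∪ J) : ↥(UU P j)) : Y))
    rw [ed3_Phi_coe]
    refine (P.lin k.1).congr fun i hi => ?_
    by_cases hij : i = j
    · subst hij; simp
    · rw [Function.update_of_ne hij, Function.update_of_ne hij]
      by_cases hiJ : i ∈ J
      · rw [Finset.piecewise_eq_of_mem _ _ _ hiJ, Finset.piecewise_eq_of_mem]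
        exact Finset.mem_union_right _ hiJ
      · rw [Finset.piecewise_eq_of_notMem _ _ _ hiJ, Finset.piecewise_eq_of_notMem]
        intro h
        rcases Finset.mem_union.1 h with h | h
        · exact Finset.disjoint_left.1 hD2 h (Finset.mem_erase.2 ⟨hij, hi⟩)
        · exact hiJ h

theorem ed3_expand (P : Fam ι F Y) (j : ι) (A0 : Finset ι) (y b : ι → Y)
    (Φ : Finset ι → Y →ₗ[F] Y) (hU : ∀ B x, Φ B x ∈ UU P j)
    (ψ : ↥((ed3_SS P j A0 y b).dualAnnihilator)) (x : Y) :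
    ψ.1 (ed3_Phi P j Φ hU x) = ∑ k, ∑ B ∈ A0.powerset, ed3_lam P j A0 y b B ψ k *
      ed3_f P j (B.piecewise b y) k (ed3_Phi P j Φ hU x B) := by
  have h1 : ∀ B : Finset ι, ψ.1 (Pi.single B (ed3_Phi P j Φ hU x B)) =
      if B ∈ A0.powerset then ∑ k, ed3_lam P j A0 y b B ψ k *
        ed3_f P j (B.piecewise b y) k (ed3_Phi P j Φ hU x B) else 0 := by
    intro B
    by_cases hB : B ∈ A0.powerset
    · rw [if_pos hB]
      exact ed3_lam_spec P j A0 y b B ψ _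
    · rw [if_neg hB]
      exact ed3_ann P j A0 y b ψ (ed3_SS_out P j A0 y b
        (fun h => hB (Finset.mem_powerset.2 h)) _)
  have hx : ed3_Phi P j Φ hU x = ∑ B, Pi.single B (ed3_Phi P j Φ hU x B) :=
    (Finset.univ_sum_single _).symm
  calc ψ.1 (ed3_Phi P j Φ hU x) = ψ.1 (∑ B, Pi.single B (ed3_Phi P j Φ hU x B)) := by rw [← hx]
    _ = ∑ B, ψ.1 (Pi.single B (ed3_Phi P j Φ hU x B)) := map_sum _ _ _
    _ = ∑ B, if B ∈ A0.powerset then ∑ k, ed3_lam P j A0 y b B ψ k *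
        ed3_f P j (B.piecewise b y) k (ed3_Phi P j Φ hU x B) else 0 :=
      Finset.sum_congr rfl fun B _ => h1 B
    _ = ∑ B ∈ A0.powerset, ∑ k, ed3_lam P j A0 y b B ψ k *
        ed3_f P j (B.piecewise b y) k (ed3_Phi P j Φ hU x B) := by
      rw [Finset.sum_ite_mem, Finset.univ_inter]
    _ = _ := Finset.sum_comm

theorem ed3_dual (P : Fam ι F Y) (j : ι) (A0 : Finset ι)
    (hA : ∀ k, j ∈ P.ty k → (P.ty k).erase j ⊆ A0) (y b : ι → Y) (Mn : Finset P.κ)
    (Φ : Finset ι → Y →ₗ[F] Y) (hU : ∀ B x, Φ B x ∈ UU P j)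
    (hN : ∀ k ∈ Mn, ∀ D : Finset ι, Disjoint D ((P.ty k).erase j) → ∀ x,
      ∑ J ∈ ((P.ty k).erase j).powerset,
        P.p k (Function.update (J.piecewise b y) j (Φ (D ∪ J) x)) = 0)
    (ψ : ↥((ed3_SS P j A0 y b).dualAnnihilator))
    (hdefz : ∀ B, ∀ k : ed3_N P j, k.1 ∉ Mn → ed3_lam P j A0 y b B ψ k = 0)
    (hstep : ∀ i ∈ A0, ∀ B ⊆ A0.erase i, ∀ k : ed3_N P j, i ∈ P.ty k.1 →
      ed3_lam P j A0 y b (insert i B) ψ k = ed3_lam P j A0 y b B ψ k) (x : Y) :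
    ψ.1 (ed3_Phi P j Φ hU x) = 0 := by
  rw [ed3_expand]
  refine Finset.sum_eq_zero fun k _ => ?_
  by_cases hk : k.1 ∈ Mn
  · rw [← Finset.sum_fiberwise_of_maps_to
      (g := fun B : Finset ι => B \ (P.ty k.1).erase j)
      (t := (A0 \ (P.ty k.1).erase j).powerset)
      (fun B hB => Finset.mem_powerset.2 (Finset.sdiff_subset_sdiff
        (Finset.mem_powerset.1 hB) (le_refl _)))]
    refine Finset.sum_eq_zero fun D hD => ?_
    have hD1 : D ⊆ A0 := (Finset.mem_powerset.1 hD).trans Finset.sdiff_subset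
    have hD2 : Disjoint D ((P.ty k.1).erase j) :=
      Finset.disjoint_of_subset_left (Finset.mem_powerset.1 hD) Finset.sdiff_disjoint
    rw [ed3_fiber P j A0 hA y b Φ hU ψ x k D hD1 hD2
      (fun J hJ => ed3_lam_union P j A0 hA y b ψ hstep k D hD1 hD2 J hJ),
      ← Finset.mul_sum, hN k.1 hk D hD2 x, mul_zero]
  · exact Finset.sum_eq_zero fun B _ => by rw [hdefz B k hk, zero_mul]

end PRAR
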