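import Pool.Agent.PRAR.Ba

/-! # Section 6: definitions -/

set_option autoImplicit false
set_option linter.unusedSectionVars false

open scoped Classical

noncomputable section

namespace PRAR

section

variable {ι : Type} [Fintype ι] {F : Type} [Field F]
variable {Y V : Type} [AddCommGroup Y] [Module F Y] [AddCommGroup V] [Module F V]

/-- Subfamily. -/
def Fam.sub (P : Fam ι F Y) (s : P.κ → Prop) : Fam ι F Y where
  κ := {k : P.κ // s k}
  fin := inferInstance
  ty k := P.ty k.1
  p k := P.p k.1
  lin k := P.lin k.1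
  ne k := P.ne k.1

/-- The forms whose type does not contain `j`. -/
def Fam.off (P : Fam ι F Y) (j : ι) : Fam ι F Y := P.sub (fun k => j ∉ P.ty k)

/-- The common kernel of the linear forms of type `{j}`. -/
def UU (P : Fam ι F Y) (j : ι) : Submodule F Y where
  carrier := {u | ∀ k, P.ty k = {j} → P.p k (Function.update 0 j u) = 0}
  add_mem' := by
    intro a b ha hb k hk
    have h := (P.lin k).add j (by rw [hk]; simp) 0 a b
    rw [h, ha k hk, hb k hk, add_zero]
  zero_mem' := fun k hk => (P.lin k).update_zero (by rw [hk]; simp) 0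
  smul_mem' := by
    intro c a ha k hk
    have h := (P.lin k).smul j (by rw [hk]; simp) 0 c a
    rw [h, ha k hk, smul_zero]

/-- `u` such that all forms of `P` containing `j` vanish at `(g, u)`. -/
def KK (P : Fam ι F Y) (j : ι) (g : ι → Y) : Submodule F Y where
  carrier := {u | ∀ k, j ∈ P.ty k → P.p k (Function.update g j u) = 0}
  add_mem' := by
    intro a b ha hb k hk
    have h := (P.lin k).add j hk g a b
    rw [h, ha k hk, hb k hk, add_zero]
  zero_mem' := fun k hk => (P.lin k).update_zero hk g
  smul_mem' := by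
    intro c a ha k hk
    have h := (P.lin k).smul j hk g c a
    rw [h, ha k hk, smul_zero]

/-- The neutralising recursion. -/
structure Neut (P : Fam ι F Y) (j : ι) (b : ι → Y) (Mn : Finset P.κ) (θ : P.κ → Y)
    (π : Y →ₗ[F] Y) (u : Finset ι → (ι → Y) → Y) : Prop where
  empty : ∀ y, u ∅ y = π (y j)
  step : ∀ B : Finset ι, B.Nonempty → ∀ y, u B y =
    - ∑ k ∈ Mn.filter (fun k => (P.ty k).erase j ⊆ B),
      (∑ J ∈ ((P.ty k).erase j).ssubsets,
        P.p k (Function.update (J.piecewise b y) j (u ((B \ (P.ty k).erase j) ∪ J) y))) • θ k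

/-- The corrected map `T'`. -/
def TT (T : (ι → Y) → V) (A0 : Finset ι) (b : ι → Y) (j : ι) (u : Finset ι → (ι → Y) → Y) :
    (ι → Y) → V :=
  fun y => ∑ B ∈ A0.powerset, T (Function.update (B.piecewise b y) j (u B y))

end

end PRAR
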