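import Pool.Agent.PRAR.Ba

/-! # Corollary E* -/

set_option autoImplicit false
set_option linter.unusedSectionVars false

open scoped Classical

noncomputable section

namespace PRAR

theorem ees_pow_le (F : Type) [Field F] [Fintype F] {a b : ℕ} (h : a ≤ b) :
    (qq F)⁻¹ ^ b ≤ (qq F)⁻¹ ^ a := by
  have h1 := one_lt_qq F
  have h2 := qq_pos F
  exact pow_le_pow_of_le_one (by positivity) (inv_le_one_of_one_le₀ h1.le) h

theorem ees_small_mono {ι : Type} [Fintype ι] {F : Type} [Field F] [Fintype F]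
    {Y V : Type} [AddCommGroup Y] [Module F Y] [Fintype Y] [AddCommGroup V] [Module F V]
    {A : Finset ι} {c d : ℕ} (hcd : c ≤ d) {P : Fam ι F Y} {T : (ι → Y) → V}
    (h : Small A c P T) : Small A d P T :=
  fun y hy => (ees_pow_le F hcd).trans (h y hy)

theorem ees_arith (B m c x : ℕ) (hB : 1 ≤ B) :
    B ^ m * (B * (c + x) + m * x) ≤ B ^ (m + 1) * (c + (m + 1) * x) := by
  have h1 : m * x ≤ B * (m * x) := Nat.le_mul_of_pos_left _ hB
  calc B ^ m * (B * (c + x) + m * x) ≤ B ^ m * (B * (c + x) + B * (m * x)) :=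
        Nat.mul_le_mul_left _ (Nat.add_le_add_left h1 _)
    _ = B ^ (m + 1) * (c + (m + 1) * x) := by ring

theorem ees_ind (ι : Type) [Fintype ι] (hE : StmtE ι) : ∃ B : ℕ, 1 ≤ B ∧ ∀ (m : ℕ)
    (A IT : Finset ι), A.card = m → A ⊆ IT → ∀ C ρ E0 : ℕ, 1 ≤ E0 → ∃ K : ℕ,
    ∀ (F : Type) [Field F] [Fintype F], (∀ I ⊆ A, DD F I C) →
    ∀ (Y V : Type) [AddCommGroup Y] [Module F Y] [Fintype Y] [AddCommGroup V] [Module F V]
    [Fintype V] (ss : ℕ), 1 ≤ ss → ∀ (P : Fam ι F Y) (T : (ι → Y) → V) (c : ℕ), P.On A →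
    P.card ≤ ρ * ss → MLin F IT T → Small A c P T →
    ∃ T' : (ι → Y) → V, MLin F IT T' ∧ PRle F IT (T - T') (K * ss) ∧
      (qq F)⁻¹ ^ (B ^ m * (c + m * (B * ss / E0))) ≤ prob (fun y : ι → Y => T' y = 0) := by
  obtain ⟨C2, hC2⟩ := hE
  refine ⟨C2 + 1, Nat.le_add_left 1 C2, fun m => ?_⟩
  induction m with
  | zero =>
    intro A IT hA _ C ρ E0 _
    rw [Finset.card_eq_zero] at hA
    subst hA
    refine ⟨0, ?_⟩
    intro F _ _ _ Y V _ _ _ _ _ _ ss _ P T c hP _ hT hS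
    refine ⟨T, hT, ?_, ?_⟩
    · rw [zero_mul]
      exact (PRle.zero IT).of_eq (by intro y; simp)
    · have h1 := hS (fun _ => 0) (by
        intro k
        exfalso
        obtain ⟨i, hi⟩ := P.ne k
        exact absurd (hP k hi) (Finset.notMem_empty i))
      unfold ZA at h1
      simpa using h1
  | succ m ih =>
    intro A IT hA hAI C ρ E0 hE0
    have hne : A.Nonempty := by
      rw [← Finset.card_pos, hA]
      exact Nat.succ_pos m
    obtain ⟨j, hj⟩ := hne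
    obtain ⟨K1, hK1⟩ := hC2 A IT j hj hAI C ρ E0 hE0
    obtain ⟨K2, hK2⟩ := ih (A.erase j) IT (by rw [Finset.card_erase_of_mem hj, hA]; rfl)
      ((Finset.erase_subset j A).trans hAI) C K1 E0 hE0
    refine ⟨K1 + K2, ?_⟩
    intro F _ _ hD Y V _ _ _ _ _ _ ss hss P T c hP hPc hT hS
    obtain ⟨P', T1, hP', hPc', hT1, hPR1, hS1⟩ := hK1 F hD Y V ss hss P T c hP hPc hT hS
    have hx : C2 * ss / E0 ≤ (C2 + 1) * ss / E0 :=
      Nat.div_le_div_right (Nat.mul_le_mul_right _ (Nat.le_succ C2))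
    have hS2 : Small (A.erase j) ((C2 + 1) * (c + (C2 + 1) * ss / E0)) P' T1 :=
      ees_small_mono (Nat.mul_le_mul (Nat.le_succ C2) (Nat.add_le_add_left hx c)) hS1
    obtain ⟨T', hT', hPR2, hpr⟩ := hK2 F (fun I hI => hD I (hI.trans (Finset.erase_subset j A)))
      Y V ss hss P' T1 _ hP' hPc' hT1 hS2
    refine ⟨T', hT', ?_, ?_⟩
    · rw [add_mul]
      exact hPR1.trans hPR2
    · exact (ees_pow_le F (ees_arith (C2 + 1) m c _ (Nat.le_add_left 1 C2))).trans hpr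

theorem ees_arith2 (B N m c x z : ℕ) (hB : 1 ≤ B) (hm : m ≤ N)
    (hz : x ≤ z) : B ^ m * (c + m * x) ≤ B ^ (N + 1) * (N + 1) * (c + z) := by
  have h1 : B ^ m ≤ B ^ (N + 1) := Nat.pow_le_pow_right hB (by omega)
  have h2 : c + m * x ≤ (N + 1) * (c + z) := by
    have h3 : m * x ≤ (N + 1) * z := Nat.mul_le_mul (by omega) hz
    nlinarith
  calc B ^ m * (c + m * x) ≤ B ^ (N + 1) * ((N + 1) * (c + z)) := Nat.mul_le_mul h1 h2
    _ = B ^ (N + 1) * (N + 1) * (c + z) := by ring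

theorem esOfE (ι : Type) [Fintype ι] (hE : StmtE ι) : StmtEs ι := by
  obtain ⟨B, hB, h⟩ := ees_ind ι hE
  refine ⟨B ^ (Fintype.card ι + 1) * (Fintype.card ι + 1), ?_⟩
  intro A IT hAI C ρ E0 hE0
  obtain ⟨K, hK⟩ := h A.card A IT rfl hAI C ρ E0 hE0
  refine ⟨K, ?_⟩
  intro F _ _ hD Y V _ _ _ _ _ _ ss hss P T c hP hPc hT hS
  obtain ⟨T', hT', hPR, hpr⟩ := hK F hD Y V ss hss P T c hP hPc hT hS
  refine ⟨T', hT', hPR, le_trans (ees_pow_le F ?_) hpr⟩
  apply ees_arith2 B _ _ _ _ _ hB (Finset.card_le_univ A)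
  apply Nat.div_le_div_right
  apply Nat.mul_le_mul_right
  calc B = B ^ 1 * 1 := by ring
    _ ≤ B ^ (Fintype.card ι + 1) * (Fintype.card ι + 1) :=
      Nat.mul_le_mul (Nat.pow_le_pow_right hB (by omega)) (by omega)

end PRAR
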