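import Pool.Agent.PRAR.E.B1
import Pool.Agent.PRAR.E.B2
import Pool.Agent.PRAR.E.B3
import Pool.Agent.PRAR.E.C1
import Pool.Agent.PRAR.E.D3

/-! # Section 6 (vi): smallness at good points -/

set_option autoImplicit false
set_option linter.unusedSectionVars false

open scoped Classical

noncomputable section

namespace PRAR

variable {ι : Type} [Fintype ι] {F : Type} [Field F] [Fintype F]
variable {Y V : Type} [AddCommGroup Y] [Module F Y] [Fintype Y] [AddCommGroup V] [Module F V]
  [Fintype V]

/-- Moving the base point. -/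
theorem ef1_pt {A B : Finset ι} {j : ι} (hjA : j ∈ A) (hB : B ⊆ A.erase j) (b y z : ι → Y)
    (w : Y) :
    Function.update (B.piecewise b ((A.erase j).piecewise y z)) j w =
      A.piecewise (Function.update (B.piecewise b y) j w) z := by
  funext i
  by_cases hij : i = j
  · subst hij; simp [hjA]
  · by_cases hiB : i ∈ B
    · have hiA : i ∈ A := Finset.mem_of_mem_erase (hB hiB)
      simp [hij, hiB, hiA]
    · by_cases hiA : i ∈ A
      · simp [hij, hiB, hiA]
      · simp [hij, hiB, hiA]

/-- Moving the base point, with one more slot. -/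
theorem ef1_pt' {A B : Finset ι} {j i : ι} (hjA : j ∈ A) (hB : B ⊆ A.erase j)
    (hi : i ∈ A.erase j) (b y z : ι → Y) (v w : Y) :
    Function.update (Function.update (B.piecewise b ((A.erase j).piecewise y z)) i v) j w =
      A.piecewise (Function.update (Function.update (B.piecewise b y) i v) j w) z := by
  have hij : i ≠ j := Finset.ne_of_mem_erase hi
  have hiA : i ∈ A := Finset.mem_of_mem_erase hi
  rw [Function.update_comm hij, ef1_pt hjA hB, Function.update_comm hij (v := v) (w := w) (f := B.piecewise b y)]
  funext l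
  by_cases hli : l = i
  · subst hli; simp [hiA]
  · by_cases hlA : l ∈ A
    · by_cases hlj : l = j
      · subst hlj; simp [hli, hlA]
      · simp [hli, hlj, hlA]
    · simp [hli, hlA]

theorem ef1_x {A0 B : Finset ι} {j : ι} (b y z : ι → Y) (x w : Y) :
    Function.update (B.piecewise b (A0.piecewise y (Function.update z j x))) j w =
      Function.update (B.piecewise b (A0.piecewise y z)) j w := by
  funext i
  by_cases hij : i = j
  · subst hij; simp
  · simp [Finset.piecewise, hij]

/-- Two neighbouring vertices add up to a one-sum vertex. -/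
theorem ef1_two {IT B : Finset ι} {j i : ι} (hi : i ∈ IT) (hiB : i ∉ B) (hij : i ≠ j)
    {T : (ι → Y) → V} (hT : MLin F IT T) (b Z : ι → Y) (w : Y) :
    T (Function.update (B.piecewise b Z) j w) +
      T (Function.update ((insert i B).piecewise b Z) j w) =
      T (Function.update (Function.update (B.piecewise b Z) i (Z i + b i)) j w) := by
  rw [Function.update_comm hij, hT.add i hi]
  congr 1
  · congr 1
    have : (Function.update (B.piecewise b Z) j w) i = Z i := by simp [hij, hiB]
    rw [← this, Function.update_eq_self]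
  · congr 1
    rw [Finset.piecewise_insert, Function.update_comm hij]

theorem ef1_sum {W : Type} [AddCommMonoid W] (A0 : Finset ι) (g1 : Finset ι → W)
    (g : ι → Finset ι → Finset ι → W) :
    ∑ B ∈ A0.powerset, (g1 B + ∑ i ∈ A0 \ B, g i B B + ∑ i ∈ B, g i B (B.erase i)) =
      ∑ B ∈ A0.powerset, g1 B +
        ∑ i ∈ A0, ∑ B ∈ (A0.erase i).powerset, (g i B B + g i (insert i B) B) := by
  rw [Finset.sum_add_distrib, Finset.sum_add_distrib, add_assoc]
  congr 1
  have h1 : ∑ B ∈ A0.powerset, ∑ i ∈ A0 \ B, g i B B =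
      ∑ i ∈ A0, ∑ B ∈ (A0.erase i).powerset, g i B B := by
    apply Finset.sum_comm'
    intro B i
    simp only [Finset.mem_powerset, Finset.mem_sdiff, Finset.subset_erase]
    tauto
  have h2 : ∑ B ∈ A0.powerset, ∑ i ∈ B, g i B (B.erase i) =
      ∑ i ∈ A0, ∑ B ∈ A0.powerset.filter (fun B => i ∈ B), g i B (B.erase i) := by
    apply Finset.sum_comm'
    intro B i
    simp only [Finset.mem_powerset, Finset.mem_filter]
    constructor
    · rintro ⟨h, h'⟩; exact ⟨⟨h, h'⟩, h h'⟩
    · rintro ⟨⟨h, h'⟩, _⟩; exact ⟨h, h'⟩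
  rw [h1, h2, ← Finset.sum_add_distrib]
  apply Finset.sum_congr rfl
  intro i hi
  rw [Finset.sum_add_distrib]
  congr 1
  apply Finset.sum_nbij' (fun B => B.erase i) (fun B => insert i B)
  · intro B hB
    simp only [Finset.mem_filter, Finset.mem_powerset] at hB
    simp only [Finset.mem_powerset]
    exact Finset.erase_subset_erase i hB.1
  · intro B hB
    simp only [Finset.mem_powerset, Finset.subset_erase] at hB
    simp only [Finset.mem_filter, Finset.mem_powerset, Finset.mem_insert_self, and_true]
    exact Finset.insert_subset hi hB.1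
  · intro B hB
    simp only [Finset.mem_filter, Finset.mem_powerset] at hB
    exact Finset.insert_erase hB.2
  · intro B hB
    simp only [Finset.mem_powerset, Finset.subset_erase] at hB
    exact Finset.erase_insert hB.2
  · intro B hB
    simp only [Finset.mem_filter, Finset.mem_powerset] at hB
    show g i B (B.erase i) = g i (insert i (B.erase i)) (B.erase i)
    rw [Finset.insert_erase hB.2]

/-- (vi) at good points. -/
theorem small_good {A IT : Finset ι} {j : ι} (hjA : j ∈ A) (hA : A ⊆ IT) {T : (ι → Y) → V}
    (hT : MLin F IT T) {P : Fam ι F Y} (hP : P.On A) {c : ℕ} (hs : Small A c P T)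
    {b : ι → Y} (hb : b ∈ (P.off j).zer) {Mn : Finset P.κ} {θ : P.κ → Y}
    {π : Y →ₗ[F] Y} {u : Finset ι → (ι → Y) → Y} (h : Neut P j b Mn θ π u)
    (hMn : ∀ k ∈ Mn, j ∈ P.ty k ∧ P.ty k ≠ {j}) (hθU : ∀ k ∈ Mn, θ k ∈ UU P j)
    (hπ : ∀ x, π x ∈ UU P j)
    (hθ : ∀ k ∈ Mn, ∀ k' ∈ Mn, P.p k' (Function.update b j (θ k)) = if k' = k then 1 else 0)
    (κ : ℕ)
    (hdef : (Finset.univ.filter (fun k => j ∈ P.ty k ∧ P.ty k ≠ {j} ∧ k ∉ Mn)).card ≤ κ)
    (y : ι → Y) (hy : y ∈ ((P.off j).pull b).zer) (hdep : dep P j y b ≤ κ) :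
    (qq F)⁻¹ ^ ((Fintype.card ι + 1) * 2 ^ Fintype.card ι * (κ + c)) ≤
      ZA (A.erase j) (TT T (A.erase j) b j u) y := by
  have hjA0 : j ∉ A.erase j := Finset.notMem_erase j A
  have hjIT : j ∈ IT := hA hjA
  have hq : 0 < qq F := qq_pos F
  have hq1 : (qq F)⁻¹ ≤ 1 := inv_le_one_of_one_le₀ (one_lt_qq F).le
  have hq0 : 0 ≤ (qq F)⁻¹ := by positivity
  -- the vertices
  have hvert : ∀ J : Finset ι, J.piecewise b y ∈ (P.off j).zer :=
    (Fam.pull_zer (P.off j) hb y).1 hy
  have hvert' : ∀ (J : Finset ι) (k : P.κ), j ∉ P.ty k → P.p k (J.piecewise b y) = 0 :=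
    fun J k hk => hvert J ⟨k, hk⟩
  have hv1 : ∀ (B : Finset ι) (w : Y), w ∈ KK P j (B.piecewise b y) →
      Function.update (B.piecewise b y) j w ∈ P.zer := by
    intro B w hw k
    by_cases hk : j ∈ P.ty k
    · exact hw k hk
    · rw [(P.lin k).off j hk]; exact hvert' B k hk
  have hv2 : ∀ (i : ι) (B : Finset ι) (w : Y), i ∉ B →
      w ∈ KK P j (Function.update (B.piecewise b y) i (y i + b i)) →
      Function.update (Function.update (B.piecewise b y) i (y i + b i)) j w ∈ P.zer := by
    intro i B w hiB hw k
    by_cases hk : j ∈ P.ty k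
    · exact hw k hk
    · rw [(P.lin k).off j hk]
      by_cases hik : i ∈ P.ty k
      · rw [(P.lin k).add i hik]
        have e1 : Function.update (B.piecewise b y) i (y i) = B.piecewise b y := by
          have : (B.piecewise b y) i = y i := by simp [hiB]
          rw [← this, Function.update_eq_self]
        have e2 : Function.update (B.piecewise b y) i (b i) = (insert i B).piecewise b y := by
          rw [Finset.piecewise_insert]
        rw [e1, e2, hvert' B k hk, hvert' _ k hk, add_zero]
      · rw [(P.lin k).off i hik]; exact hvert' B k hk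
  -- the linear maps
  have hnotB : ∀ B : Finset ι, B ⊆ A.erase j → j ∉ B := fun B hB hj => hjA0 (hB hj)
  set Φ : Finset ι → Y →ₗ[F] Y := fun B =>
    if hB : B ⊆ A.erase j then
      slotMap (neut_mlin h hMn B (hnotB B hB)) (Finset.mem_insert_self j B) y
    else 0 with hΦ
  have hΦ1 : ∀ B : Finset ι, B ⊆ A.erase j → ∀ x, Φ B x = u B (Function.update y j x) := by
    intro B hB x
    simp only [hΦ, hB, dif_pos]
    rfl
  have hΦ2 : ∀ B : Finset ι, ¬ B ⊆ A.erase j → ∀ x, Φ B x = 0 := by
    intro B hB x
    simp only [hΦ, hB]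
    rfl
  have htyA : ∀ k, (P.ty k).erase j ⊆ A.erase j := fun k => Finset.erase_subset_erase j (hP k)
  obtain ⟨S, hScod, hS⟩ := grid_lemma P j (A.erase j) hjA0 (fun k _ => htyA k) y b Mn hMn κ hdep
    hdef Φ
    (by
      intro B x
      by_cases hB : B ⊆ A.erase j
      · rw [hΦ1 B hB]; exact neut_mem h hθU hπ B _
      · rw [hΦ2 B hB]; exact Submodule.zero_mem _)
    (by
      intro k hk D hD x
      by_cases hDA : D ⊆ A.erase j
      · have hN := neut_N h hMn hθ k hk D hD (Function.update y j x)
        rw [← hN]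
        apply Finset.sum_congr rfl
        intro J hJ
        have hJ' : J ⊆ (P.ty k).erase j := Finset.mem_powerset.1 hJ
        have hDJ : D ∪ J ⊆ A.erase j := Finset.union_subset hDA (hJ'.trans (htyA k))
        rw [hΦ1 _ hDJ]
        congr 1
        funext i
        by_cases hij : i = j
        · subst hij; simp
        · simp [Finset.piecewise, hij]
      · apply Finset.sum_eq_zero
        intro J _
        have hDJ : ¬ D ∪ J ⊆ A.erase j := fun hh => hDA (Finset.union_subset_left hh)
        rw [hΦ2 _ hDJ, (P.lin k).update_zero (hMn k hk).1])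
  -- key bound for x in S
  have key : ∀ x ∈ S, (qq F)⁻¹ ^ ((Fintype.card ι + 1) * 2 ^ Fintype.card ι * c) ≤
      prob (fun z : ι → Y => TT T (A.erase j) b j u
        ((A.erase j).piecewise y (Function.update z j x)) = 0) := by
    intro x hx
    obtain ⟨w1, w2, hw1, hw2, hsum⟩ := hS x hx
    -- index set
    let s : Finset (Finset ι ⊕ (Σ _ : ι, Finset ι)) :=
      (A.erase j).powerset.disjSum ((A.erase j).sigma fun i => ((A.erase j).erase i).powerset)
    let gv : (Finset ι ⊕ (Σ _ : ι, Finset ι)) → ι → Y := fun a => match a with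
      | Sum.inl B => Function.update (B.piecewise b y) j (w1 B)
      | Sum.inr e => Function.update (Function.update (e.2.piecewise b y) e.1 (y e.1 + b e.1)) j
          (w2 e.1 e.2)
    have hcard : s.card ≤ (Fintype.card ι + 1) * 2 ^ Fintype.card ι := by
      have hc0 : (A.erase j).card ≤ Fintype.card ι := Finset.card_le_univ _
      have hc1 : ∀ i ∈ A.erase j, ((A.erase j).erase i).powerset.card ≤ 2 ^ Fintype.card ι := by
        intro i _
        rw [Finset.card_powerset]
        exact Nat.pow_le_pow_right (by norm_num) (Finset.card_le_univ _)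
      have hc2 : (A.erase j).powerset.card ≤ 2 ^ Fintype.card ι := by
        rw [Finset.card_powerset]
        exact Nat.pow_le_pow_right (by norm_num) hc0
      have hc3 : ((A.erase j).sigma fun i => ((A.erase j).erase i).powerset).card ≤
          Fintype.card ι * 2 ^ Fintype.card ι := by
        rw [Finset.card_sigma]
        calc _ ≤ ∑ _i ∈ A.erase j, 2 ^ Fintype.card ι := Finset.sum_le_sum hc1
          _ = (A.erase j).card * 2 ^ Fintype.card ι := by simp
          _ ≤ _ := Nat.mul_le_mul_right _ hc0
      have : s.card = (A.erase j).powerset.card +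
          ((A.erase j).sigma fun i => ((A.erase j).erase i).powerset).card :=
        Finset.card_disjSum _ _
      rw [this]
      calc _ ≤ 2 ^ Fintype.card ι + Fintype.card ι * 2 ^ Fintype.card ι := Nat.add_le_add hc2 hc3
        _ = _ := by ring
    have hmlin : ∀ k ∈ s, MLin F (IT \ A) (fun z => T (A.piecewise (gv k) z)) :=
      fun k _ => hT.fix A (gv k)
    have hge : ∀ k ∈ s, (qq F)⁻¹ ^ c ≤ prob (fun z : ι → Y => T (A.piecewise (gv k) z) = 0) := by
      intro k hk
      apply hs
      rcases k with B | ⟨i, B⟩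
      · have hB : B ⊆ A.erase j := by simpa [s] using hk
        exact hv1 B _ (hw1 B hB)
      · have hk' : i ∈ A.erase j ∧ B ⊆ (A.erase j).erase i := by
          have := hk
          simp only [s, Finset.inr_mem_disjSum, Finset.mem_sigma, Finset.mem_powerset] at this
          exact this
        have hiB : i ∉ B := fun hh => Finset.notMem_erase i _ (hk'.2 hh)
        exact hv2 i B _ hiB (hw2 i hk'.1 B hk'.2)
    have hmain := prob_sum_ge s hmlin c hge
    have hpow : (qq F)⁻¹ ^ ((Fintype.card ι + 1) * 2 ^ Fintype.card ι * c) ≤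
        (qq F)⁻¹ ^ (s.card * c) :=
      pow_le_pow_of_le_one hq0 hq1 (Nat.mul_le_mul_right _ hcard)
    refine (hpow.trans hmain).trans (prob_mono ?_)
    intro z hz
    rw [← hz]
    -- the identity
    let yt : ι → Y := (A.erase j).piecewise y z
    let f : Finset ι → Y →ₗ[F] V := fun B => slotMap hT hjIT (B.piecewise b yt)
    have hf : ∀ B w, f B w = T (Function.update (B.piecewise b yt) j w) := fun _ _ => rfl
    have e1 : TT T (A.erase j) b j u ((A.erase j).piecewise y (Function.update z j x)) =
        ∑ B ∈ (A.erase j).powerset, (f B (w1 B) + ∑ i ∈ A.erase j \ B, f B (w2 i B) +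
          ∑ i ∈ B, f B (w2 i (B.erase i))) := by
      unfold TT
      apply Finset.sum_congr rfl
      intro B hB
      have hB' : B ⊆ A.erase j := Finset.mem_powerset.1 hB
      have hu : u B ((A.erase j).piecewise y (Function.update z j x)) = Φ B x := by
        rw [hΦ1 B hB']
        apply (neut_mlin h hMn B (hnotB B hB')).congr
        intro i hi
        rcases Finset.mem_insert.1 hi with rfl | hi
        · simp
        · have hiA : i ∈ A.erase j := hB' hi
          have hij : i ≠ j := Finset.ne_of_mem_erase hiA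
          rw [Finset.piecewise_eq_of_mem _ _ _ hiA, Function.update_of_ne hij]
      rw [hu, ef1_x, hsum B hB']
      rw [← hf, map_add, map_add, map_sum, map_sum]
    rw [e1, ef1_sum (A.erase j) (fun B => f B (w1 B)) (fun i B B' => f B (w2 i B'))]
    have e2 : ∑ k ∈ s, T (A.piecewise (gv k) z) =
        ∑ B ∈ (A.erase j).powerset, T (A.piecewise (gv (Sum.inl B)) z) +
          ∑ i ∈ A.erase j, ∑ B ∈ ((A.erase j).erase i).powerset,
            T (A.piecewise (gv (Sum.inr ⟨i, B⟩)) z) := by
      have := Finset.sum_disjSum (A.erase j).powerset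
        ((A.erase j).sigma fun i => ((A.erase j).erase i).powerset)
        (fun k => T (A.piecewise (gv k) z))
      rw [Finset.sum_sigma] at this
      exact this
    rw [e2]
    congr 1
    · apply Finset.sum_congr rfl
      intro B hB
      have hB' : B ⊆ A.erase j := Finset.mem_powerset.1 hB
      rw [hf, ef1_pt hjA hB']
    · apply Finset.sum_congr rfl
      intro i hi
      apply Finset.sum_congr rfl
      intro B hB
      have hB' : B ⊆ (A.erase j).erase i := Finset.mem_powerset.1 hB
      have hBA : B ⊆ A.erase j := hB'.trans (Finset.erase_subset _ _)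
      have hiB : i ∉ B := fun hh => Finset.notMem_erase i _ (hB' hh)
      have hij : i ≠ j := Finset.ne_of_mem_erase hi
      have hiIT : i ∈ IT := hA (Finset.mem_of_mem_erase hi)
      have hyt : yt i = y i := Finset.piecewise_eq_of_mem _ _ _ hi
      rw [hf, hf, ef1_two hiIT hiB hij hT, hyt, ef1_pt' hjA hBA hi]
  -- average over x
  have havg : ZA (A.erase j) (TT T (A.erase j) b j u) y =
      avg (fun x : Y => prob (fun z : ι → Y => TT T (A.erase j) b j u
        ((A.erase j).piecewise y (Function.update z j x)) = 0)) := by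
    unfold ZA
    rw [← prob_update j]
    simp_rw [prob_eq_avg]
    exact avg_comm _
  rw [havg]
  have hle : ∀ x : Y, (qq F)⁻¹ ^ ((Fintype.card ι + 1) * 2 ^ Fintype.card ι * c) *
      (if x ∈ S then (1 : ℝ) else 0) ≤
      prob (fun z : ι → Y => TT T (A.erase j) b j u
        ((A.erase j).piecewise y (Function.update z j x)) = 0) := by
    intro x
    by_cases hx : x ∈ S
    · simp only [hx, if_true, mul_one]; exact key x hx
    · simp only [hx, if_false, mul_zero]; exact prob_nonneg _
  refine le_trans ?_ (avg_mono hle)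
  rw [avg_const_mul, ← prob_eq_avg, prob_mem, ← pow_add]
  apply pow_le_pow_of_le_one hq0 hq1
  calc _ ≤ (Fintype.card ι + 1) * 2 ^ Fintype.card ι * c +
        (Fintype.card ι + 1) * 2 ^ Fintype.card ι * κ := Nat.add_le_add_left hScod _
    _ = _ := by ring

end PRAR
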