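import Pool.Agent.PRAR.E.Def

/-! # Section 6 (vii): smallness at all points -/

set_option autoImplicit false
set_option linter.unusedSectionVars false

open scoped Classical

noncomputable section

namespace PRAR

variable {ι : Type} [Fintype ι] {F : Type} [Field F] [Fintype F]
variable {Y V : Type} [AddCommGroup Y] [Module F Y] [Fintype Y] [AddCommGroup V] [Module F V]
  [Fintype V]

/-- (vii) from good points to all points of the variety of a family `Q`. -/
theorem small_all {A0 IT : Finset ι} (hA : A0 ⊆ IT) {T' : (ι → Y) → V}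
    (hT : MLin F IT T') (Q : Fam ι F Y) (Bad : (ι → Y) → Prop)
    (h : 2 ^ Fintype.card ι * prob Bad < (qq F)⁻¹ ^ (2 ^ Fintype.card ι * Q.card)) (c1 : ℕ)
    (hgood : ∀ y ∈ Q.zer, ¬ Bad y → (qq F)⁻¹ ^ c1 ≤ ZA A0 T' y) :
    Small A0 (2 ^ Fintype.card ι * c1) Q T' := by
  intro y hy
  obtain ⟨v, hv⟩ := exists_good_shift Q hy Bad h
  have hf : ∀ J ∈ A0.powerset, MLin F (IT \ A0) (fun z : ι → Y =>
      (-1 : F) ^ (A0 \ J).card • T' (A0.piecewise (J.piecewise (y + v) v) z)) :=
    fun J _ => (hT.fix A0 (J.piecewise (y + v) v)).smul' _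
  have hprob : ∀ J ∈ A0.powerset, (qq F)⁻¹ ^ c1 ≤ prob (fun z : ι → Y =>
      (-1 : F) ^ (A0 \ J).card • T' (A0.piecewise (J.piecewise (y + v) v) z) = 0) := by
    intro J _
    refine (hgood _ (hv J).1 (hv J).2).trans (le_of_eq ?_)
    unfold ZA
    apply prob_congr
    intro z
    have hne : ((-1 : F) ^ (A0 \ J).card) ≠ 0 := pow_ne_zero _ (neg_ne_zero.2 one_ne_zero)
    constructor
    · intro hz
      rw [hz, smul_zero]
    · intro hz
      exact (smul_eq_zero.1 hz).resolve_left hne
  have hsum := prob_sum_ge A0.powerset hf c1 hprob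
  have hZ : ZA A0 T' y = prob (fun z : ι → Y => ∑ J ∈ A0.powerset,
      (-1 : F) ^ (A0 \ J).card • T' (A0.piecewise (J.piecewise (y + v) v) z) = 0) := by
    unfold ZA
    apply prob_congr
    intro z
    rw [hT.expand hA y v z]
  rw [hZ]
  refine le_trans ?_ hsum
  apply pow_le_pow_of_le_one
  · exact inv_nonneg.2 (qq_pos F).le
  · exact inv_le_one_of_one_le₀ (one_lt_qq F).le
  · apply Nat.mul_le_mul_right
    rw [Finset.card_powerset]
    exact Nat.pow_le_pow_right (by norm_num) (Finset.card_le_univ A0)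

end PRAR
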