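import Pool.Agent.PRAR.E.A1
import Pool.Agent.PRAR.E.A2
import Pool.Agent.PRAR.E.A3
import Pool.Agent.PRAR.E.B1
import Pool.Agent.PRAR.E.C2
import Pool.Agent.PRAR.E.F1
import Pool.Agent.PRAR.E.F2

/-! # Lemma E -/

set_option autoImplicit false
set_option linter.unusedSectionVars false

open scoped Classical

noncomputable section

namespace PRAR

theorem ez_small_mono {ι : Type} [Fintype ι] {F : Type} [Field F] [Fintype F] {Y V : Type}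
    [AddCommGroup Y] [Module F Y] [Fintype Y] [AddCommGroup V] [Module F V]
    {A : Finset ι} {c c' : ℕ} (h : c ≤ c') {P : Fam ι F Y} {T : (ι → Y) → V}
    (hs : Small A c P T) : Small A c' P T := by
  intro y hy
  refine le_trans ?_ (hs y hy)
  have hq := one_lt_qq F
  have h0 : 0 < (qq F)⁻¹ := inv_pos.2 (qq_pos F)
  have h1 : (qq F)⁻¹ ≤ 1 := inv_le_one_of_one_le₀ hq.le
  exact pow_le_pow_of_le_one h0.le h1 h

/-- The numerical inequality for the exceptional set. -/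
theorem ez_num {q : ℝ} (hq : 2 ≤ q) (N K' ss m m' : ℕ) (hss : 1 ≤ ss) (hm : m ≤ K' * ss)
    (hm' : m' ≤ 2 ^ N * m) :
    2 ^ N * (q ^ m * q⁻¹ ^ ((K' * (1 + 4 ^ N) + N + 1) * ss)) < q⁻¹ ^ (2 ^ N * m') := by
  have hq0 : 0 < q := by linarith
  have hq1 : (1 : ℝ) ≤ q := by linarith
  have hp0 : 0 < q⁻¹ := inv_pos.2 hq0
  have hp1 : q⁻¹ ≤ 1 := inv_le_one_of_one_le₀ hq1
  have hp2 : q⁻¹ ≤ 1 / 2 := by
    rw [inv_eq_one_div]
    exact one_div_le_one_div_of_le (by norm_num) hq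
  set X := K' * ss with hX
  have e1 : (K' * (1 + 4 ^ N) + N + 1) * ss = X + (4 ^ N * X + (N + 1) * ss) := by
    rw [hX]; ring
  have e2 : q ^ m * q⁻¹ ^ ((K' * (1 + 4 ^ N) + N + 1) * ss) ≤
      q⁻¹ ^ ((N + 1) * ss) * q⁻¹ ^ (4 ^ N * X) := by
    rw [e1, pow_add, pow_add]
    have h1 : q ^ m ≤ q ^ X := pow_le_pow_right₀ hq1 hm
    have h2 : q ^ X * q⁻¹ ^ X = 1 := by
      rw [← mul_pow, mul_inv_cancel₀ hq0.ne', one_pow]
    calc q ^ m * (q⁻¹ ^ X * (q⁻¹ ^ (4 ^ N * X) * q⁻¹ ^ ((N + 1) * ss)))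
        ≤ q ^ X * (q⁻¹ ^ X * (q⁻¹ ^ (4 ^ N * X) * q⁻¹ ^ ((N + 1) * ss))) :=
          mul_le_mul_of_nonneg_right h1 (by positivity)
      _ = (q ^ X * q⁻¹ ^ X) * (q⁻¹ ^ ((N + 1) * ss) * q⁻¹ ^ (4 ^ N * X)) := by ring
      _ = _ := by rw [h2, one_mul]
  have e3 : (2 : ℝ) ^ N * q⁻¹ ^ ((N + 1) * ss) ≤ 1 / 2 := by
    have h1 : q⁻¹ ^ ((N + 1) * ss) ≤ q⁻¹ ^ (N + 1) :=
      pow_le_pow_of_le_one hp0.le hp1 (Nat.le_mul_of_pos_right _ hss)
    have h2 : q⁻¹ ^ (N + 1) ≤ (1 / 2 : ℝ) ^ (N + 1) := pow_le_pow_left₀ hp0.le hp2 _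
    have h3 : (2 : ℝ) ^ N * (1 / 2 : ℝ) ^ (N + 1) = 1 / 2 := by
      rw [pow_succ, ← mul_assoc, ← mul_pow]
      norm_num
    rw [← h3]
    exact mul_le_mul_of_nonneg_left (h1.trans h2) (by positivity)
  have e4 : q⁻¹ ^ (4 ^ N * X) ≤ q⁻¹ ^ (2 ^ N * m') := by
    refine pow_le_pow_of_le_one hp0.le hp1 ?_
    have h4 : (4 : ℕ) ^ N = 2 ^ N * 2 ^ N := by
      rw [← mul_pow]
      norm_num
    rw [h4, mul_assoc]
    exact Nat.mul_le_mul_left _ (hm'.trans (Nat.mul_le_mul_left _ hm))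
  have hpos : 0 < q⁻¹ ^ (4 ^ N * X) := by positivity
  calc 2 ^ N * (q ^ m * q⁻¹ ^ ((K' * (1 + 4 ^ N) + N + 1) * ss))
      ≤ 2 ^ N * (q⁻¹ ^ ((N + 1) * ss) * q⁻¹ ^ (4 ^ N * X)) :=
        mul_le_mul_of_nonneg_left e2 (by positivity)
    _ = (2 ^ N * q⁻¹ ^ ((N + 1) * ss)) * q⁻¹ ^ (4 ^ N * X) := by ring
    _ ≤ (1 / 2) * q⁻¹ ^ (4 ^ N * X) := mul_le_mul_of_nonneg_right e3 hpos.le
    _ < q⁻¹ ^ (4 ^ N * X) := by linarith
    _ ≤ _ := e4

theorem lemE (ι : Type) [Fintype ι] (hReg : ∀ (A : Finset ι) (C : ℕ), StmtReg ι A C)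
    (hR : StmtR ι) : StmtE ι := by
  obtain ⟨C1, hC1⟩ := hR
  set N := Fintype.card ι with hN
  set a0 := 2 ^ N * ((N + 1) * 2 ^ N) with ha0
  refine ⟨a0 + C1, ?_⟩
  intro A IT j hjA hA C ρ E0 hE0
  choose M hM1 hM using fun K' : ℕ => hC1 K' E0 (K' * (1 + 4 ^ N) + N + 1) hE0
  obtain ⟨K0, hK0⟩ := hReg A C ρ E0 M hE0 hM1
  refine ⟨2 ^ N * K0 + K0, ?_⟩
  intro F _ _ hDD Y V _ _ _ _ _ _ ss hss P T c hPA hPc hT hsm
  obtain ⟨P1, K', hP1A, hK', hzer, hcard, hreg⟩ := hK0 F hDD Y ss hss P hPA hPc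
  have hsm1 : Small A c P1 T := fun y hy => hsm y (hzer hy)
  have hRp := hM K' F Y ss hss P1 j hcard (fun I _ => hreg I)
  set κ := C1 * ss / E0 with hκ
  have hκd : ∀ d : ℕ, κ < d → (C1 : ℝ) * ((ss : ℝ) / E0) < d := by
    intro d hd
    have h1 : C1 * ss < d * E0 := (Nat.div_lt_iff_lt_mul hE0).1 hd
    have hE : (0 : ℝ) < E0 := by exact_mod_cast hE0
    rw [← mul_div_assoc, div_lt_iff₀ hE]
    exact_mod_cast h1
  obtain ⟨b, hb, hbp⟩ := choose_b P1 j κ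
  have hq2 := two_le_qq F
  have hq0 := qq_pos F
  have hcoff : (P1.off j).card ≤ P1.card := ea1_card_off P1 j
  have hcP' : ((P1.off j).pull b).card ≤ 2 ^ N * P1.card :=
    (Fam.pull_card (P1.off j) b).trans (Nat.mul_le_mul_left _ hcoff)
  have hBad : 2 ^ N * prob (fun y : ι → Y => κ < dep P1 j y b) <
      (qq F)⁻¹ ^ (2 ^ N * ((P1.off j).pull b).card) := by
    refine lt_of_le_of_lt ?_ (ez_num hq2 N K' ss P1.card _ hss hcard hcP')
    refine mul_le_mul_of_nonneg_left (hbp.trans ?_) (by positivity)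
    refine mul_le_mul_of_nonneg_left ((prob_mono fun yb hyb => ?_).trans hRp) (by positivity)
    exact hκd _ hyb
  have hex : ∃ y0 : ι → Y, dep P1 j y0 b ≤ κ := by
    by_contra hne
    push Not at hne
    have h1 : prob (fun y : ι → Y => κ < dep P1 j y b) = 1 := prob_le_of_equiv_one hne
    rw [h1, mul_one] at hBad
    have h2 : (1 : ℝ) ≤ 2 ^ N := one_le_pow₀ (by norm_num)
    have h3 : (qq F)⁻¹ ^ (2 ^ N * ((P1.off j).pull b).card) ≤ 1 :=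
      pow_le_one₀ (inv_pos.2 hq0).le (inv_le_one_of_one_le₀ (by linarith))
    linarith
  obtain ⟨y0, hy0⟩ := hex
  obtain ⟨Mn, θ, hMn, hθU, hθ, hdef0⟩ := choose_main P1 j y0 b
  have hdef := hdef0.trans hy0
  obtain ⟨π, hπ1, hπ2, hπ3⟩ := exists_proj (UU P1 j)
  obtain ⟨u, hu⟩ := exists_neut P1 j b Mn θ π
  have hT' : MLin F IT (TT T (A.erase j) b j u) :=
    TT_mlin hjA hA hT b fun B hB => neut_mlin hu hMn B hB
  have hKK : 2 ^ N * (K' * ss) ≤ (2 ^ N * K0 + K0) * ss := by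
    have h1 : 2 ^ N * K' ≤ 2 ^ N * K0 + K0 :=
      (Nat.mul_le_mul_left _ hK').trans (Nat.le_add_right _ _)
    calc 2 ^ N * (K' * ss) = 2 ^ N * K' * ss := by ring
      _ ≤ _ := Nat.mul_le_mul_right _ h1
  refine ⟨(P1.off j).pull b, TT T (A.erase j) b j u, ?_, ?_, hT', ?_, ?_⟩
  · refine Fam.pull_on (fun k => ?_) b
    intro i hi
    refine Finset.mem_erase.2 ⟨?_, hP1A k.1 hi⟩
    rintro rfl
    exact k.2 hi
  · exact (hcP'.trans (Nat.mul_le_mul_left _ hcard)).trans hKK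
  · refine (TT_cost hjA hA hT hP1A hu hMn hπ3).mono ⟨j, hA hjA⟩ ?_
    refine hcard.trans (Nat.mul_le_mul_right _ ?_)
    exact hK'.trans (Nat.le_add_left _ _)
  · have h1 := small_all ((Finset.erase_subset j A).trans hA) hT' ((P1.off j).pull b)
      (fun y => κ < dep P1 j y b) hBad ((N + 1) * 2 ^ N * (κ + c))
      (fun y hy hnb => small_good hjA hA hT hP1A hsm1 hb hu hMn hθU hπ1 hθ κ hdef y hy
        (not_lt.1 hnb))
    refine ez_small_mono ?_ h1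
    have h2 : κ ≤ (a0 + C1) * ss / E0 :=
      Nat.div_le_div_right (Nat.mul_le_mul_right _ (Nat.le_add_left _ _))
    calc 2 ^ N * ((N + 1) * 2 ^ N * (κ + c)) = a0 * (c + κ) := by rw [ha0]; ring
      _ ≤ (a0 + C1) * (c + (a0 + C1) * ss / E0) :=
        Nat.mul_le_mul (Nat.le_add_right _ _) (Nat.add_le_add_left h2 _)

end PRAR
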